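import Mathlib

/-!
# Automorphisms of `ℂ` over a subfield closed under radicals
-/

set_option autoImplicit false

open scoped Classical

namespace StarkAlg

namespace AutF

/-- The substitution `X_i ↦ X_i + c`. -/
noncomputable def shiftHom {R ι : Type} [CommRing R] (i : ι) (c : R) :
    MvPolynomial ι R →ₐ[R] MvPolynomial ι R :=
  MvPolynomial.aeval fun j => if j = i then MvPolynomial.X j + MvPolynomial.C c
    else MvPolynomial.X j

theorem shiftHom_comp {R ι : Type} [CommRing R] (i : ι) (c : R) :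
    (shiftHom i c).comp (shiftHom i (-c)) = AlgHom.id R (MvPolynomial ι R) := by
  refine MvPolynomial.algHom_ext fun j => ?_
  by_cases h : j = i
  · simp [shiftHom, h]
  · simp [shiftHom, h]

/-- The automorphism `X_i ↦ X_i + c`. -/
noncomputable def shift {R ι : Type} [CommRing R] (i : ι) (c : R) :
    MvPolynomial ι R ≃ₐ[R] MvPolynomial ι R :=
  AlgEquiv.ofAlgHom (shiftHom i c) (shiftHom i (-c)) (shiftHom_comp i c) (by
    have h := shiftHom_comp i (-c)
    rwa [neg_neg] at h)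

theorem shift_X {R ι : Type} [CommRing R] (i : ι) (c : R) :
    shift i c (MvPolynomial.X i) = MvPolynomial.X i + MvPolynomial.C c := by
  show shiftHom i c (MvPolynomial.X i) = _
  simp [shiftHom]

/-- For every `a` transcendental over `F` there is an automorphism of `ℂ` over `F` which maps `a`
to `a + 1`. -/
theorem exists_transcendental (F : Subfield ℂ) (a : ℂ) (ha : Transcendental F a) :
    ∃ σ : ℂ ≃+* ℂ, (∀ x ∈ F, σ x = x) ∧ σ a = a + 1 := by
  have hs : AlgebraicIndepOn F id ({a} : Set ℂ) := by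
    have : Unique ({a} : Set ℂ) := Set.uniqueSingleton a
    exact (algebraicIndependent_singleton_iff (⟨a, rfl⟩ : ({a} : Set ℂ))).2 ha
  obtain ⟨t, hat, ht⟩ := exists_isTranscendenceBasis_superset hs
  have hat' : a ∈ t := hat rfl
  let e0 := ht.1.aevalEquiv
  let e := (e0.symm.trans (shift (⟨a, hat'⟩ : t) (1 : F))).trans e0
  let _ : IsAlgClosure (Algebra.adjoin F (Set.range ((↑) : t → ℂ))) ℂ :=
    IsAlgClosed.isAlgClosure_of_transcendence_basis _ ht
  refine ⟨IsAlgClosure.equivOfEquiv ℂ ℂ e.toRingEquiv, fun z hz => ?_, ?_⟩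
  · have h1 : z = algebraMap (Algebra.adjoin F (Set.range ((↑) : t → ℂ))) ℂ
        (algebraMap F _ (⟨z, hz⟩ : F)) := rfl
    conv_lhs => rw [h1]
    rw [IsAlgClosure.equivOfEquiv_algebraMap]
    show algebraMap _ ℂ (e (algebraMap F _ (⟨z, hz⟩ : F))) = z
    rw [AlgEquiv.commutes]
    rfl
  · have h0 : ((e0 (MvPolynomial.X (⟨a, hat'⟩ : t)) :
        Algebra.adjoin F (Set.range ((↑) : t → ℂ))) : ℂ) = a := by
      simp [e0]
    have h1 : a = algebraMap (Algebra.adjoin F (Set.range ((↑) : t → ℂ))) ℂ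
        (e0 (MvPolynomial.X (⟨a, hat'⟩ : t))) := h0.symm
    conv_lhs => rw [h1]
    rw [IsAlgClosure.equivOfEquiv_algebraMap]
    have h2 : e.toRingEquiv (e0 (MvPolynomial.X (⟨a, hat'⟩ : t))) =
        e0 (MvPolynomial.X (⟨a, hat'⟩ : t)) + 1 := by
      show e0 (shift (⟨a, hat'⟩ : t) (1 : F) (e0.symm (e0 (MvPolynomial.X (⟨a, hat'⟩ : t))))) = _
      rw [AlgEquiv.symm_apply_apply, shift_X, map_add, map_one, map_one]
    rw [h2, map_add, map_one]
    exact congrArg (· + 1) h0

/-- Every automorphism of the algebraic closure of `F` in `ℂ` extends to `ℂ`. -/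
theorem exists_extend (F : Subfield ℂ)
    (τ : algebraicClosure F ℂ ≃ₐ[F] algebraicClosure F ℂ) :
    ∃ σ : ℂ ≃+* ℂ, (∀ x ∈ F, σ x = x) ∧
      ∀ x : algebraicClosure F ℂ, σ (x : ℂ) = (τ x : ℂ) := by
  obtain ⟨t, ht⟩ := exists_isTranscendenceBasis (algebraicClosure F ℂ) ℂ
  let e0 := ht.1.aevalEquiv
  let e := (e0.symm.toRingEquiv.trans (MvPolynomial.mapEquiv t τ.toRingEquiv)).trans
    e0.toRingEquiv
  let _ : IsAlgClosure (Algebra.adjoin (algebraicClosure F ℂ) (Set.range ((↑) : t → ℂ))) ℂ :=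
    IsAlgClosed.isAlgClosure_of_transcendence_basis _ ht
  have key : ∀ x : algebraicClosure F ℂ,
      IsAlgClosure.equivOfEquiv ℂ ℂ e (x : ℂ) = (τ x : ℂ) := by
    intro x
    have h1 : (x : ℂ) = algebraMap
        (Algebra.adjoin (algebraicClosure F ℂ) (Set.range ((↑) : t → ℂ))) ℂ
        (algebraMap (algebraicClosure F ℂ) _ x) := rfl
    rw [h1, IsAlgClosure.equivOfEquiv_algebraMap]
    have h2 : e (algebraMap (algebraicClosure F ℂ) _ x) =
        algebraMap (algebraicClosure F ℂ) _ (τ x) := by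
      show e0 (MvPolynomial.map (τ.toRingEquiv : algebraicClosure F ℂ →+* algebraicClosure F ℂ)
        (e0.symm (algebraMap (algebraicClosure F ℂ) _ x))) = _
      rw [AlgEquiv.commutes, MvPolynomial.algebraMap_eq, MvPolynomial.map_C,
        ← MvPolynomial.algebraMap_eq]
      exact e0.commutes _
    rw [h2]
    rfl
  refine ⟨IsAlgClosure.equivOfEquiv ℂ ℂ e, fun x hx => ?_, key⟩
  have h3 := key (algebraMap F (algebraicClosure F ℂ) ⟨x, hx⟩)
  rw [AlgEquiv.commutes] at h3
  exact h3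

theorem exists_power {s : Multiset ℂ} {a : ℂ} (h : ∀ b ∈ s, ∃ N : ℕ, 0 < N ∧ b ^ N = a ^ N) :
    ∃ N : ℕ, 0 < N ∧ s.prod ^ N = (a ^ Multiset.card s) ^ N := by
  induction s using Multiset.induction_on with
  | empty => exact ⟨1, one_pos, by simp⟩
  | cons b s ih =>
    obtain ⟨N, hN, h1⟩ := ih fun c hc => h c (Multiset.mem_cons_of_mem hc)
    obtain ⟨M, hM, h2⟩ := h b (Multiset.mem_cons_self b s)
    refine ⟨N * M, Nat.mul_pos hN hM, ?_⟩
    rw [Multiset.prod_cons, Multiset.card_cons, mul_pow, pow_mul s.prod, h1, mul_comm N M,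
      pow_mul b, h2]
    ring

/-- `algebraic` case: if all conjugates of `a` are multiples of `a` by roots of unity, a power of
`a` lies in `F`. -/
theorem power_mem (F : Subfield ℂ) (a : ℂ) (ha : IsAlgebraic F a)
    (h : ∀ σ : ℂ ≃+* ℂ, (∀ x ∈ F, σ x = x) → ∃ N : ℕ, 0 < N ∧ σ a ^ N = a ^ N) :
    ∃ m : ℕ, 0 < m ∧ a ^ m ∈ F := by
  have hint : IsIntegral F a := isAlgebraic_iff_isIntegral.1 ha
  have hmem : a ∈ algebraicClosure F ℂ := mem_algebraicClosure_iff.2 ha
  have hsplit : ((minpoly F a).map (algebraMap F ℂ)).Splits :=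
    IsAlgClosed.splits _
  have hmonic : ((minpoly F a).map (algebraMap F ℂ)).Monic := (minpoly.monic hint).map _
  have hroots : ∀ b ∈ ((minpoly F a).map (algebraMap F ℂ)).roots,
      ∃ N : ℕ, 0 < N ∧ b ^ N = a ^ N := by
    intro b hb
    have hb1 : Polynomial.aeval b (minpoly F a) = 0 := by
      have h1 := Polynomial.isRoot_of_mem_roots hb
      rw [Polynomial.IsRoot.def, Polynomial.eval_map_algebraMap] at h1
      exact h1
    have hb2 : IsAlgebraic F b := ⟨minpoly F a, minpoly.ne_zero hint, hb1⟩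
    have hbmem : b ∈ algebraicClosure F ℂ := mem_algebraicClosure_iff.2 hb2
    have hmin : minpoly F (⟨a, hmem⟩ : algebraicClosure F ℂ) = minpoly F a :=
      (minpoly.algebraMap_eq (FaithfulSMul.algebraMap_injective (algebraicClosure F ℂ) ℂ)
        (⟨a, hmem⟩ : algebraicClosure F ℂ)).symm
    have hmin' : minpoly F (⟨b, hbmem⟩ : algebraicClosure F ℂ) = minpoly F b :=
      (minpoly.algebraMap_eq (FaithfulSMul.algebraMap_injective (algebraicClosure F ℂ) ℂ)
        (⟨b, hbmem⟩ : algebraicClosure F ℂ)).symm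
    have hconj : IsConjRoot F (⟨b, hbmem⟩ : algebraicClosure F ℂ) ⟨a, hmem⟩ := by
      show minpoly F _ = minpoly F _
      rw [hmin, hmin']
      exact (minpoly.eq_of_irreducible_of_monic (minpoly.irreducible hint) hb1
        (minpoly.monic hint)).symm
    have hnormal : Normal F (algebraicClosure F ℂ) := IsAlgClosure.normal F _
    obtain ⟨τ, hτ⟩ := isConjRoot_iff_exists_algEquiv.1 hconj
    obtain ⟨σ, hσ, hσ2⟩ := exists_extend F τ
    obtain ⟨N, hN, h2⟩ := h σ hσ
    refine ⟨N, hN, ?_⟩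
    have h3 : σ a = b := by
      have h4 := hσ2 ⟨a, hmem⟩
      rw [hτ] at h4
      exact h4
    rw [← h3]
    exact h2
  obtain ⟨N, hN, h1⟩ := exists_power hroots
  have hcard : Multiset.card ((minpoly F a).map (algebraMap F ℂ)).roots =
      (minpoly F a).natDegree := by
    rw [← hsplit.natDegree_eq_card_roots, Polynomial.natDegree_map]
  have hpos : 0 < (minpoly F a).natDegree := minpoly.natDegree_pos hint
  have hcoeff := hsplit.coeff_zero_eq_prod_roots_of_monic hmonic
  have hprod : ((minpoly F a).map (algebraMap F ℂ)).roots.prod ∈ F := by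
    have h4 : ((minpoly F a).map (algebraMap F ℂ)).roots.prod =
        (-1) ^ (minpoly F a).natDegree * ((minpoly F a).coeff 0 : ℂ) := by
      rw [Polynomial.coeff_map, Polynomial.natDegree_map] at hcoeff
      have h5 : ((minpoly F a).coeff 0 : ℂ) = (-1) ^ (minpoly F a).natDegree *
          ((minpoly F a).map (algebraMap F ℂ)).roots.prod := hcoeff
      rw [h5, ← mul_assoc, ← mul_pow]
      simp
    rw [h4]
    exact F.mul_mem (F.pow_mem (F.neg_mem F.one_mem) _) ((minpoly F a).coeff 0).2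
  refine ⟨(minpoly F a).natDegree * N, Nat.mul_pos hpos hN, ?_⟩
  rw [pow_mul, ← hcard, ← h1]
  exact F.pow_mem hprod N

theorem algebraic_of_shift_pow (F : Subfield ℂ) {a : ℂ} {m : ℕ} (hm : 0 < m)
    (h : (a + 1) ^ m = a ^ m) : IsAlgebraic F a := by
  refine ⟨(Polynomial.X + 1) ^ m - Polynomial.X ^ m, ?_, ?_⟩
  · intro h0
    have h1 := congrArg (Polynomial.eval (0 : F)) h0
    simp [hm.ne'] at h1
  · simp [h]

end AutF

/-- If no power of `a` lies in the subfield `F`, some automorphism of `ℂ` over `F` moves all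
powers of `a`. -/
theorem exists_autF' (F : Subfield ℂ) (a : ℂ) (ha : ∀ m : ℕ, 0 < m → a ^ m ∉ F) :
    ∃ σ : ℂ ≃+* ℂ, (∀ x ∈ F, σ x = x) ∧ ∀ N : ℕ, 0 < N → σ a ^ N ≠ a ^ N := by
  by_cases halg : IsAlgebraic F a
  · by_contra hcon
    push Not at hcon
    obtain ⟨m, hm, h1⟩ := AutF.power_mem F a halg hcon
    exact ha m hm h1
  · obtain ⟨σ, hσ, h1⟩ := AutF.exists_transcendental F a halg
    refine ⟨σ, hσ, fun N hN h2 => halg ?_⟩
    rw [h1] at h2
    exact AutF.algebraic_of_shift_pow F hN h2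

theorem exists_autF : ∀ (F : Subfield ℂ),
    (∀ (x : ℂ) (m : ℕ), 0 < m → x ^ m ∈ F → x ∈ F) →
    ∀ a : ℂ, (∀ m : ℕ, 0 < m → a ^ m ∉ F) →
    ∃ σ : ℂ ≃+* ℂ, (∀ x ∈ F, σ x = x) ∧ ∀ N : ℕ, 0 < N → σ a ^ N ≠ a ^ N :=
  fun F _ a ha => exists_autF' F a ha

end StarkAlg
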