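import Pool.Agent.StarkAlg.AUTF
import Pool.Agent.StarkU.CNMAIN
import Pool.Agent.StarkU.ALLV

/-!
# Stark numbers in a multiplicative group: induction, change of `S` and `φ`
-/

open NumberField IsDedekindDomain
open scoped TensorProduct Classical

namespace StarkG

open StarkC

/-- `z` is an element of the group `G`. -/
def In (G : Subgroup ℂˣ) (z : ℂ) : Prop := ∃ u ∈ G, (u : ℂ) = z

/-- `G` contains the nonzero elements of `ℚ(ζ_n)` and is closed under roots. -/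
structure Full (n : ℕ) (G : Subgroup ℂˣ) : Prop where
  cyc : ∀ u : ℂˣ, (u : ℂ) ∈ Cyc n → u ∈ G
  root : ∀ (u : ℂˣ) (m : ℕ), 0 < m → u ^ m ∈ G → u ∈ G

theorem In.ne_zero {G : Subgroup ℂˣ} {z : ℂ} (h : In G z) : z ≠ 0 := by
  obtain ⟨u, -, rfl⟩ := h
  exact u.ne_zero

theorem In.mul {G : Subgroup ℂˣ} {y z : ℂ} (hy : In G y) (hz : In G z) : In G (y * z) := by
  obtain ⟨u, hu, rfl⟩ := hy
  obtain ⟨v, hv, rfl⟩ := hz
  exact ⟨u * v, G.mul_mem hu hv, by push_cast; ring⟩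

theorem In.zpow {G : Subgroup ℂˣ} {y : ℂ} (hy : In G y) (k : ℤ) : In G (y ^ k) := by
  obtain ⟨u, hu, rfl⟩ := hy
  exact ⟨u ^ k, G.zpow_mem hu k, by push_cast; ring⟩

theorem In.pow {G : Subgroup ℂˣ} {y : ℂ} (hy : In G y) (k : ℕ) : In G (y ^ k) := by
  obtain ⟨u, hu, rfl⟩ := hy
  exact ⟨u ^ k, G.pow_mem hu k, by push_cast; ring⟩

theorem In.inv {G : Subgroup ℂˣ} {y : ℂ} (hy : In G y) : In G y⁻¹ := by
  obtain ⟨u, hu, rfl⟩ := hy
  exact ⟨u⁻¹, G.inv_mem hu, by push_cast; ring⟩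

theorem In.prod {G : Subgroup ℂˣ} {ι : Type} (s : Finset ι) (f : ι → ℂ) (h : ∀ i ∈ s, In G (f i)) :
    In G (∏ i ∈ s, f i) := by
  induction s using Finset.induction_on with
  | empty => exact ⟨1, G.one_mem, by simp⟩
  | insert i s hi ih =>
    rw [Finset.prod_insert hi]
    exact (h i (Finset.mem_insert_self _ _)).mul
      (ih fun j hj => h j (Finset.mem_insert_of_mem hj))

theorem in_of_fixed {n : ℕ} {G : Subgroup ℂˣ} (hG : Full n G) {x : ℂ} (hx : x ≠ 0)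
    (h : ∀ σ : ℂ ≃+* ℂ, (∀ y ∈ Cyc n, σ y = y) → σ x = x) : In G x := by
  refine ⟨Units.mk0 x hx, ?_, rfl⟩
  by_contra hna
  obtain ⟨σ, hσ, hσ2⟩ := StarkAlg.exists_autF' (Cyc n).toSubfield x fun m hm hmF => hna
    (hG.root _ m hm (hG.cyc _ (by
      rw [Units.val_pow_eq_pow_val, Units.val_mk0]
      exact hmF)))
  exact hσ2 1 one_pos (by rw [h σ hσ])

/-- `A(χ)^M ∈ G`. -/
def GMul {K L : Type} [Field K] [NumberField K] [Field L] [NumberField L] [Algebra K L]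
    (G : Subgroup ℂˣ) (M : ℕ) (S : Set (HeightOneSpectrum (𝓞 K)))
    (T : Set (HeightOneSpectrum (𝓞 L))) (Θ : XC L T →ₗ[ℂ] XC L T)
    {V : Type} [AddCommGroup V] [Module ℂ V] (ρ : Representation ℂ (L ≃ₐ[K] L) V) : Prop :=
  ∃ f : ℂ → ℂ, IsArtinLMul M ρ.character S f ∧
    In G (Reg T ρ Θ ^ M / meromorphicTrailingCoeffAt f 0)

/-! ### Induction -/

theorem gind (G : Subgroup ℂˣ) (K N : Type) [Field K] [NumberField K] [Field N] [NumberField N]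
    [Algebra K N] [IsGalois K N]
    (S : Finset (HeightOneSpectrum (𝓞 K)))
    (φ : XQ N (aboveSet K N S) ≃ₗ[ℚ] QU N (aboveSet K N S))
    (Θ : XC N (aboveSet K N S) →ₗ[ℂ] XC N (aboveSet K N S))
    (V : Type) [AddCommGroup V] [Module ℂ V] [Module.Finite ℂ V]
    (ρ : Representation ℂ (N ≃ₐ[K] N) V)
    (M m : ℕ) (H : Fin m → Subgroup (N ≃ₐ[K] N)) (ψ : ∀ i, H i →* ℂˣ) (n : Fin m → ℤ)
    (hM : 0 < M) (hφ : IsPhiTheta K (aboveSet K N S) φ Θ)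
    (hχ : ∀ g, (M : ℂ) * ρ.character g = ∑ i, (n i : ℂ) * indFun (H i) (extZ (ψ i)) g)
    (hlin : ∀ i, ∃ (Mi : ℕ)
      (S' : Finset (HeightOneSpectrum (𝓞 (IntermediateField.fixedField (H i))))),
      0 < Mi ∧ aboveSet (IntermediateField.fixedField (H i)) N S' = aboveSet K N S ∧
      GMul G Mi (S' : Set (HeightOneSpectrum (𝓞 (IntermediateField.fixedField (H i)))))
        (aboveSet K N S) Θ (linRep (liftChar (H i) (ψ i)))) :
    ∃ M' : ℕ, 0 < M' ∧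
      GMul G M' (S : Set (HeightOneSpectrum (𝓞 K))) (aboveSet K N S) Θ ρ := by
  have hTf : (aboveSet K N (S : Set (HeightOneSpectrum (𝓞 K)))).Finite :=
    IND.aboveSet_finite _ S.finite_toSet
  have hT := STB_thm K N (S : Set (HeightOneSpectrum (𝓞 K)))
  have hc := ALLT.thc K N _ hT φ Θ hTf hφ
  have hb := ALLT.thb K N _ φ Θ hTf hφ
  choose k S' hPk hS' f hf hE using hlin
  set Q : ℕ := ∏ i, k i with hQ
  set q : Fin m → ℕ := fun i => ∏ j ∈ Finset.univ.erase i, k j with hq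
  have hk : ∀ i, Q = q i * k i := fun i => by
    rw [hQ, hq, mul_comm]
    exact (Finset.mul_prod_erase _ _ (Finset.mem_univ i)).symm
  refine ⟨Q * M, Nat.mul_pos (Finset.prod_pos fun i _ => hPk i) hM,
    fun z => ∏ i, f i z ^ (n i * q i), ?_, ?_⟩
  · refine INDP.artin_comb LA_thm ALLT.lb ALLT.lind _ _ M m H ψ n hχ (fun i => S' i) hS' k q Q hk f
      fun i => ?_
    have := hf i
    rwa [IND.linRep_character] at this
  · have hreg : Reg (aboveSet K N (S : Set (HeightOneSpectrum (𝓞 K)))) ρ Θ ^ (Q * M) =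
          ∏ i, (Reg (aboveSet K N (S : Set (HeightOneSpectrum (𝓞 K))))
            (linRep (liftChar (H i) (ψ i))) Θ ^ k i) ^ (n i * q i) := by
      rw [mul_comm Q M, pow_mul,
        INDP.reg_comb TRD_thm ALLT.rgt hTf hT Θ hb hc V ρ M m H ψ n hχ, ← Finset.prod_pow]
      refine Finset.prod_congr rfl fun i _ => ?_
      rw [← zpow_natCast, ← zpow_mul, ← zpow_natCast (_ : ℂ) (k i), ← zpow_mul]
      congr 1
      rw [hk i]
      push_cast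
      ring
    have hlead : meromorphicTrailingCoeffAt (fun z => ∏ i, f i z ^ (n i * q i)) 0 =
        ∏ i, meromorphicTrailingCoeffAt (f i) 0 ^ (n i * (q i : ℤ)) :=
      INDT.lead_comb (fun i => n i * (q i : ℤ)) f fun i => (hf i).1 0
    rw [hlead, hreg, ← Finset.prod_div_distrib]
    refine In.prod _ _ fun i _ => ?_
    rw [← div_zpow]
    exact (hE i).zpow _

/-! ### From the induced character to the linear character -/

theorem gdown (G : Subgroup ℂˣ) (E K N : Type) [Field E] [NumberField E] [Field K] [NumberField K]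
    [Field N] [NumberField N] [Algebra E K] [Algebra E N] [Algebra K N] [IsScalarTower E K N]
    [IsGalois E N] [IsGalois K N]
    (S₀ : Finset (HeightOneSpectrum (𝓞 E))) (S : Finset (HeightOneSpectrum (𝓞 K)))
    (hS : aboveSet K N (S : Set (HeightOneSpectrum (𝓞 K))) = aboveSet E N S₀)
    (φ : XQ N (aboveSet E N S₀) ≃ₗ[ℚ] QU N (aboveSet E N S₀))
    (Θ : XC N (aboveSet E N S₀) →ₗ[ℂ] XC N (aboveSet E N S₀))
    (hφ : IsPhiTheta E (aboveSet E N S₀) φ Θ)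
    (V : Type) [AddCommGroup V] [Module ℂ V] [Module.Finite ℂ V]
    (ρ : Representation ℂ (N ≃ₐ[E] N) V) (ψ : (N ≃ₐ[K] N) →* ℂˣ)
    (hρ : ∀ g, ρ.character g = indFun (fixK E K N) (extK E ψ) g) (M : ℕ)
    (hst : GMul G M (S₀ : Set (HeightOneSpectrum (𝓞 E))) (aboveSet E N S₀) Θ ρ) :
    GMul G M (S : Set (HeightOneSpectrum (𝓞 K))) (aboveSet E N S₀) Θ (linRep ψ) := by
  have hTf : (aboveSet E N (S₀ : Set (HeightOneSpectrum (𝓞 E)))).Finite :=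
    IND.aboveSet_finite _ S₀.finite_toSet
  have hT := STB_thm E N (S₀ : Set (HeightOneSpectrum (𝓞 E)))
  have hc := ALLT.thc E N _ hT φ Θ hTf hφ
  have hb := ALLT.thb E N _ φ Θ hTf hφ
  obtain ⟨f, hf, hR⟩ := hst
  refine ⟨f, ⟨hf.1, fun s hs => ?_⟩, ?_⟩
  · have h1 := DOWNL.logL_eq (E := E) (K := K) (N := N) ALLT.lb ALLT.lc ψ
      (S₀ : Set (HeightOneSpectrum (𝓞 E))) (S : Set (HeightOneSpectrum (𝓞 K))) hS s hs
    rw [hf.2 s hs, show ρ.character = indFun (fixK E K N) (extK E ψ) from funext hρ,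
      IND.linRep_character, h1]
  · rw [← DOWNL.reg_eq TRD_thm ALLT.rgt hTf hT Θ hb hc V ρ ψ hρ]
    exact hR

/-! ### Change of `S` and `φ` -/

section

variable {K L : Type} [Field K] [NumberField K] [Field L] [NumberField L] [Algebra K L]
  [IsGalois K L]

theorem reg_ne_zero (S : Finset (HeightOneSpectrum (𝓞 K)))
    (φ : XQ L (aboveSet K L S) ≃ₗ[ℚ] QU L (aboveSet K L S))
    (Θ : XC L (aboveSet K L S) →ₗ[ℂ] XC L (aboveSet K L S))
    (hφ : IsPhiTheta K (aboveSet K L S) φ Θ)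
    (V : Type) [AddCommGroup V] [Module ℂ V] [Module.Finite ℂ V]
    (ρ : Representation ℂ (L ≃ₐ[K] L) V) : Reg (aboveSet K L S) ρ Θ ≠ 0 := by
  have hTf : (aboveSet K L (S : Set (HeightOneSpectrum (𝓞 K)))).Finite :=
    IND.aboveSet_finite _ S.finite_toSet
  have hT := STB_thm K L (S : Set (HeightOneSpectrum (𝓞 K)))
  have hc := ALLT.thc K L _ hT φ Θ hTf hφ
  have hb := ALLT.thb K L _ φ Θ hTf hφ
  obtain ⟨W, _, _, _, B, hdet, hne, -⟩ := ALLT.rgt K L _ hT Θ V ρ hTf hc hb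
  rw [← hdet]
  exact hne

theorem ratio {n : ℕ} {G : Subgroup ℂˣ} (hG : Full n G) (ψ : (L ≃ₐ[K] L) →* ℂˣ)
    (hψ : ∀ g, ((ψ g : ℂˣ) : ℂ) ∈ Cyc n) (S : Finset (HeightOneSpectrum (𝓞 K)))
    (φ φ₂ : XQ L (aboveSet K L S) ≃ₗ[ℚ] QU L (aboveSet K L S))
    (Θ Θ₂ : XC L (aboveSet K L S) →ₗ[ℂ] XC L (aboveSet K L S))
    (h : IsPhiTheta K (aboveSet K L S) φ Θ) (h₂ : IsPhiTheta K (aboveSet K L S) φ₂ Θ₂) :
    ∃ x : ℂ, In G x ∧ Reg (aboveSet K L S) (linRep ψ) Θ₂ =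
      x * Reg (aboveSet K L S) (linRep ψ) Θ := by
  have hne := reg_ne_zero S φ Θ h ℂ (linRep ψ)
  obtain ⟨x, hx, h1, -⟩ := PHIR_thm K L S φ φ₂ Θ Θ₂ ℂ ℂ (linRep ψ) (linRep ψ) (RingEquiv.refl ℂ)
    h h₂ (fun g => rfl)
  refine ⟨x, in_of_fixed hG hx fun σ hσ => ?_, h1⟩
  obtain ⟨y, hy, h3, h4⟩ := PHIR_thm K L S φ φ₂ Θ Θ₂ ℂ ℂ (linRep ψ) (linRep ψ) σ
    h h₂ (fun g => by rw [SIND.chr]; exact (hσ _ (hψ g)).symm)
  have e1 : y = x := mul_right_cancel₀ hne (h3.symm.trans h1)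
  have e2 : σ y = x := mul_right_cancel₀ hne (h4.symm.trans h1)
  rw [e1] at e2
  exact e2

/-- `A(ψ)^M ∈ G` for all `φ`. -/
def PS (G : Subgroup ℂˣ) (K L : Type) [Field K] [NumberField K] [Field L] [NumberField L]
    [Algebra K L] (ψ : (L ≃ₐ[K] L) →* ℂˣ) (M : ℕ) (S : Finset (HeightOneSpectrum (𝓞 K))) : Prop :=
  ∀ (φ : XQ L (aboveSet K L S) ≃ₗ[ℚ] QU L (aboveSet K L S))
    (Θ : XC L (aboveSet K L S) →ₗ[ℂ] XC L (aboveSet K L S)),
    IsPhiTheta K (aboveSet K L S) φ Θ →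
    GMul G M (S : Set (HeightOneSpectrum (𝓞 K))) (aboveSet K L S) Θ (linRep ψ)

theorem all_of_one {n : ℕ} {G : Subgroup ℂˣ} (hG : Full n G) (ψ : (L ≃ₐ[K] L) →* ℂˣ)
    (hψ : ∀ g, ((ψ g : ℂˣ) : ℂ) ∈ Cyc n) (M : ℕ) (S : Finset (HeightOneSpectrum (𝓞 K)))
    (φ : XQ L (aboveSet K L S) ≃ₗ[ℚ] QU L (aboveSet K L S))
    (Θ : XC L (aboveSet K L S) →ₗ[ℂ] XC L (aboveSet K L S))
    (h : IsPhiTheta K (aboveSet K L S) φ Θ)
    (hS : GMul G M (S : Set (HeightOneSpectrum (𝓞 K))) (aboveSet K L S) Θ (linRep ψ)) :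
    PS G K L ψ M S := by
  intro φ₂ Θ₂ h₂
  obtain ⟨f, hf, he⟩ := hS
  obtain ⟨x, hx, h1⟩ := ratio hG ψ hψ S φ φ₂ Θ Θ₂ h h₂
  refine ⟨f, hf, ?_⟩
  rw [h1, mul_pow, mul_div_assoc]
  exact (hx.pow M).mul he

/-- the Euler factor is in `ℚ(ζ_n)` -/
theorem slf {n : ℕ} (v : HeightOneSpectrum (𝓞 K)) (ψ : (L ≃ₐ[K] L) →* ℂˣ)
    (hψ : ∀ g, ((ψ g : ℂˣ) : ℂ) ∈ Cyc n) :
    ∃ z : ℂ, (z = 0 ∨ ∃ k : ℕ, 0 < k ∧ z ^ k = 1) ∧ (z = 1 ↔ TrivD v ψ) ∧
      (∀ σ : ℂ ≃+* ℂ, (∀ y ∈ Cyc n, σ y = y) → σ z = z) ∧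
      ∀ S : Finset (HeightOneSpectrum (𝓞 K)), v ∉ S → ∀ s : ℂ, 1 < s.re →
        Complex.exp (logL (fun g : L ≃ₐ[K] L => ((ψ g : ℂˣ) : ℂ))
            ((insert v S : Finset (HeightOneSpectrum (𝓞 K))) :
              Set (HeightOneSpectrum (𝓞 K))) s) =
          Complex.exp (logL (fun g : L ≃ₐ[K] L => ((ψ g : ℂˣ) : ℂ))
            (S : Set (HeightOneSpectrum (𝓞 K))) s) *
            (1 - z * (Ideal.absNorm v.asIdeal : ℂ) ^ (-s)) := by
  obtain ⟨z, hz, hzT, hL⟩ := SLF_thm K L v ψ (RingEquiv.refl ℂ)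
  refine ⟨z, hz, hzT, fun σ hσ => ?_, fun S hv s hs => (hL S hv s hs).1⟩
  obtain ⟨y, -, -, hy⟩ := SLF_thm K L v ψ σ
  have hn : 1 < Ideal.absNorm v.asIdeal := NumberField.HeightOneSpectrum.one_lt_absNorm v
  have ha : ((Ideal.absNorm v.asIdeal : ℕ) : ℂ) ^ (-(2 : ℂ)) ≠ 0 := by
    rw [Complex.cpow_ne_zero_iff]
    left
    exact_mod_cast (by omega : Ideal.absNorm v.asIdeal ≠ 0)
  have h2 : 1 < (2 : ℂ).re := by norm_num
  have e0 := (hL ∅ (Finset.notMem_empty v) 2 h2).1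
  obtain ⟨e1, e2⟩ := hy ∅ (Finset.notMem_empty v) 2 h2
  have hcan : ∀ a b : ℂ, 1 - a * ((Ideal.absNorm v.asIdeal : ℕ) : ℂ) ^ (-(2 : ℂ)) =
      1 - b * ((Ideal.absNorm v.asIdeal : ℕ) : ℂ) ^ (-(2 : ℂ)) → a = b := by
    intro a b hab
    exact mul_right_cancel₀ ha (sub_right_injective hab)
  have hσψ : (fun g : L ≃ₐ[K] L => σ ((ψ g : ℂˣ) : ℂ)) = fun g => ((ψ g : ℂˣ) : ℂ) :=
    funext fun g => hσ _ (hψ g)
  rw [hσψ] at e2
  have e3 : y = z := hcan _ _ (mul_left_cancel₀ (Complex.exp_ne_zero _) (e1.symm.trans e0))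
  have e4 : σ y = z := hcan _ _ (mul_left_cancel₀ (Complex.exp_ne_zero _) (e2.symm.trans e0))
  rw [e3] at e4
  exact e4

theorem value {n : ℕ} {G : Subgroup ℂˣ} (hG : Full n G) (M k : ℕ) (hk : 1 < k) (q : ℚ)
    (hq : 0 < q) (z R l : ℂ) (P : Prop) (hz : z = 1 ↔ P)
    (hσ : ∀ σ : ℂ ≃+* ℂ, (∀ y ∈ Cyc n, σ y = y) → σ z = z) :
    (In G (R ^ M / l) ↔
      In G ((R * (if P then (q : ℂ) * ((Real.log k : ℝ) : ℂ) else 1)) ^ M /
          (l * (if z = 1 then ((Real.log k : ℝ) : ℂ) else 1 - z) ^ M))) := by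
  have hlog : ((Real.log k : ℝ) : ℂ) ≠ 0 := by
    have : 0 < Real.log k := Real.log_pos (by exact_mod_cast hk)
    exact_mod_cast this.ne'
  have hq' : (q : ℂ) ≠ 0 := by exact_mod_cast hq.ne'
  obtain ⟨c, hc, e⟩ : ∃ c : ℂ, In G c ∧
      (R * (if P then (q : ℂ) * ((Real.log k : ℝ) : ℂ) else 1)) ^ M /
          (l * (if z = 1 then ((Real.log k : ℝ) : ℂ) else 1 - z) ^ M) = (R ^ M / l) * c := by
    by_cases h : z = 1
    · have hP : P := hz.1 h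
      rw [if_pos hP, if_pos h]
      refine ⟨(q : ℂ) ^ M, ?_, ?_⟩
      · refine In.pow (in_of_fixed hG hq' fun σ _ => ?_) M
        exact map_ratCast σ q
      · rw [mul_pow, mul_pow, div_mul_eq_mul_div, ← mul_assoc,
          mul_div_mul_right _ _ (pow_ne_zero M hlog)]
    · have hP : ¬ P := fun hP => h (hz.2 hP)
      rw [if_neg hP, if_neg h, mul_one]
      have h1 : (1 - z) ≠ 0 := sub_ne_zero.2 (Ne.symm h)
      refine ⟨((1 - z) ^ M)⁻¹, ?_, ?_⟩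
      · refine In.inv (In.pow (in_of_fixed hG h1 fun σ hs => ?_) M)
        rw [map_sub, map_one, hσ σ hs]
      · rw [← div_div, div_eq_mul_inv (R ^ M / l)]
  rw [e]
  constructor
  · intro h
    exact h.mul hc
  · intro h
    have h2 := h.mul hc.inv
    rwa [mul_assoc, mul_inv_cancel₀ hc.ne_zero, mul_one] at h2

theorem step {n : ℕ} {G : Subgroup ℂˣ} (hG : Full n G) (ψ : (L ≃ₐ[K] L) →* ℂˣ)
    (hψ : ∀ g, ((ψ g : ℂˣ) : ℂ) ∈ Cyc n) (M : ℕ)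
    (S : Finset (HeightOneSpectrum (𝓞 K))) (v : HeightOneSpectrum (𝓞 K)) (hv : v ∉ S) :
    PS G K L ψ M S ↔ PS G K L ψ M (insert v S) := by
  obtain ⟨φ, Θ, hφ⟩ := ALLT.exph K L S
  obtain ⟨φ₂, Θ₂, q, hq, hφ₂, hReg⟩ := SREG_thm K L S v hv φ Θ hφ
  obtain ⟨z, hz, hzT, hzσ, hL⟩ := slf (n := n) v ψ hψ
  have hn : 1 < Ideal.absNorm v.asIdeal := NumberField.HeightOneSpectrum.one_lt_absNorm v
  have hR1 := hReg ψ
  have hval := fun l => value hG M (Ideal.absNorm v.asIdeal) hn q hq z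
    (Reg (aboveSet K L S) (linRep ψ) Θ) l (TrivD v ψ) hzT hzσ
  constructor
  · intro h
    obtain ⟨f, hf, he⟩ := h φ Θ hφ
    refine all_of_one hG ψ hψ M (insert v S) φ₂ Θ₂ hφ₂ ?_
    obtain ⟨m1, t1⟩ := SIND.mulL LEULZ_thm M _ hn z f hf.1
    refine ⟨_, ⟨m1, ?_⟩, ?_⟩
    · intro s hs
      have := hL S hv s hs
      beta_reduce
      rw [hf.2 s hs, SIND.chr, Complex.exp_nat_mul, Complex.exp_nat_mul, this, mul_pow]
    · rw [t1, hR1]
      exact (hval _).1 he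
  · intro h
    obtain ⟨f, hf, he⟩ := h φ₂ Θ₂ hφ₂
    refine all_of_one hG ψ hψ M S φ Θ hφ ?_
    obtain ⟨m1, t1⟩ := SIND.divL LEULZ_thm M _ hn z f hf.1
    refine ⟨_, ⟨m1, ?_⟩, ?_⟩
    · intro s hs
      have := hL S hv s hs
      have hne := pow_ne_zero M (SIND.euler_ne_zero hz hn hs)
      beta_reduce
      rw [hf.2 s hs, SIND.chr, Complex.exp_nat_mul, Complex.exp_nat_mul, this, mul_pow,
        mul_inv_cancel_right₀ hne]
    · rw [t1]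
      refine (hval _).2 ?_
      rw [← hR1]
      have hc : ∀ (x y : ℂ), y ≠ 0 → x * y⁻¹ * y = x := by
        intro x y hy
        field_simp
      have hc1 : (if z = 1 then ((Real.log (Ideal.absNorm v.asIdeal) : ℝ) : ℂ) else 1 - z) ^ M
          ≠ 0 := by
        refine pow_ne_zero M ?_
        split_ifs with h1
        · have : 0 < Real.log (Ideal.absNorm v.asIdeal) := Real.log_pos (by exact_mod_cast hn)
          exact_mod_cast this.ne'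
        · exact sub_ne_zero.2 (Ne.symm h1)
      rw [hc _ _ hc1]
      exact he

/-- For a linear character the assertion does not depend on `S` and `φ`. -/
theorem gsind {n : ℕ} {G : Subgroup ℂˣ} (hG : Full n G) (ψ : (L ≃ₐ[K] L) →* ℂˣ)
    (hψ : ∀ g, ((ψ g : ℂˣ) : ℂ) ∈ Cyc n) (M : ℕ)
    (S S₂ : Finset (HeightOneSpectrum (𝓞 K)))
    (φ : XQ L (aboveSet K L S) ≃ₗ[ℚ] QU L (aboveSet K L S))
    (Θ : XC L (aboveSet K L S) →ₗ[ℂ] XC L (aboveSet K L S))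
    (φ₂ : XQ L (aboveSet K L S₂) ≃ₗ[ℚ] QU L (aboveSet K L S₂))
    (Θ₂ : XC L (aboveSet K L S₂) →ₗ[ℂ] XC L (aboveSet K L S₂))
    (h : IsPhiTheta K (aboveSet K L S) φ Θ) (h₂ : IsPhiTheta K (aboveSet K L S₂) φ₂ Θ₂)
    (hS : GMul G M (S : Set (HeightOneSpectrum (𝓞 K))) (aboveSet K L S) Θ (linRep ψ)) :
    GMul G M (S₂ : Set (HeightOneSpectrum (𝓞 K))) (aboveSet K L S₂) Θ₂ (linRep ψ) := by
  have key : ∀ S : Finset (HeightOneSpectrum (𝓞 K)), PS G K L ψ M S ↔ PS G K L ψ M ∅ := by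
    intro S
    induction S using Finset.induction_on with
    | empty => exact Iff.rfl
    | insert v S hv ih =>
      rw [← step hG ψ hψ M S v hv]
      exact ih
  have h1 : PS G K L ψ M S := all_of_one hG ψ hψ M S φ Θ h hS
  exact ((key S₂).2 ((key S).1 h1)) φ₂ Θ₂ h₂

end

end StarkG
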