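import Pool.Agent.StarkAlg.GCore

/-!
# Stark numbers in a multiplicative group: reduction to ideal class characters
-/

open NumberField IsDedekindDomain
open scoped TensorProduct Classical

namespace StarkG

open StarkC

/-- A power of `A(ψ)` lies in `G`, all `φ`, `S = ∅`. -/
def Rat1 (G : Subgroup ℂˣ) (K L : Type) [Field K] [NumberField K] [Field L] [NumberField L]
    [Algebra K L] (ψ : (L ≃ₐ[K] L) →* ℂˣ) : Prop :=
  ∀ (φ : XQ L (aboveSet K L (∅ : Finset (HeightOneSpectrum (𝓞 K)))) ≃ₗ[ℚ]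
      QU L (aboveSet K L (∅ : Finset (HeightOneSpectrum (𝓞 K)))))
    (Θ : XC L (aboveSet K L (∅ : Finset (HeightOneSpectrum (𝓞 K)))) →ₗ[ℂ]
      XC L (aboveSet K L (∅ : Finset (HeightOneSpectrum (𝓞 K))))),
    IsPhiTheta K (aboveSet K L (∅ : Finset (HeightOneSpectrum (𝓞 K)))) φ Θ →
    ∃ M : ℕ, 0 < M ∧ GMul G M
      ((∅ : Finset (HeightOneSpectrum (𝓞 K))) : Set (HeightOneSpectrum (𝓞 K)))
      (aboveSet K L (∅ : Finset (HeightOneSpectrum (𝓞 K)))) Θ (linRep ψ)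

/-- class (A) -/
def ClsA (G : Subgroup ℂˣ) (E : Type) [Field E] (T : Finset ℕ) (n : ℕ) (K L : Type) [Field K]
    [NumberField K] [Field L] [NumberField L] [Algebra K L] : Prop :=
  IsTotallyComplex K →
    (∀ (w : HeightOneSpectrum (𝓞 L)) (g : L ≃ₐ[K] L), FrobPow L w 1 g → g = 1) →
    (∀ (w : HeightOneSpectrum (𝓞 L)), (∃ p ∈ T, p.Prime ∧ (p : 𝓞 L) ∈ w.asIdeal) →
      ∀ g : L ≃ₐ[K] L, Dec w g → g = 1) →
    (∃ (N : Type) (_ : Field N) (_ : NumberField N) (_ : Algebra K N) (_ : Algebra L N)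
      (_ : IsScalarTower K L N) (_ : IsGalois ℚ N), IsCyclic (N ≃ₐ[K] N) ∧
        Nonempty (E →+* N)) →
    ∀ ψ : (L ≃ₐ[K] L) →* ℂˣ, Function.Injective ψ → ψ ^ n = 1 → Rat1 G K L ψ

/-- class (B) -/
def ClsB (G : Subgroup ℂˣ) (n : ℕ) (K L : Type) [Field K] [NumberField K] [Field L] [NumberField L]
    [Algebra K L] : Prop :=
  IsTotallyReal K → ∀ ψ : (L ≃ₐ[K] L) →* ℂˣ, Function.Injective ψ →
    (∀ g, ((ψ g : ℂˣ) : ℂ) ∈ Cyc n) →
    (∀ (Φ : L →+* ℂ) (c : L ≃ₐ[K] L), ComplexEmbedding.IsConj Φ c → (ψ c : ℂ) = -1) →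
    Rat1 G K L ψ

/-- The assertion over `ℚ`. -/
def RatQ (G : Subgroup ℂˣ) (n : ℕ) : Prop :=
  ∀ (L : Type) [Field L] [NumberField L] [IsGalois ℚ L]
    (S : Finset (HeightOneSpectrum (𝓞 ℚ)))
    (φ : XQ L (aboveSet ℚ L S) ≃ₗ[ℚ] QU L (aboveSet ℚ L S))
    (Θ : XC L (aboveSet ℚ L S) →ₗ[ℂ] XC L (aboveSet ℚ L S))
    (V : Type) [AddCommGroup V] [Module ℂ V] [Module.Finite ℂ V]
    (ρ : Representation ℂ (L ≃ₐ[ℚ] L) V),
    IsPhiTheta ℚ (aboveSet ℚ L S) φ Θ → (∀ g, ρ.character g ∈ Cyc n) →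
    ∃ M : ℕ, 0 < M ∧
      GMul G M (S : Set (HeightOneSpectrum (𝓞 ℚ))) (aboveSet ℚ L S) Θ ρ

/-- The same over all number fields. -/
def RatK (G : Subgroup ℂˣ) (n : ℕ) : Prop :=
  ∀ (K L : Type) [Field K] [NumberField K] [Field L] [NumberField L] [Algebra K L] [IsGalois K L]
    (S : Finset (HeightOneSpectrum (𝓞 K)))
    (φ : XQ L (aboveSet K L S) ≃ₗ[ℚ] QU L (aboveSet K L S))
    (Θ : XC L (aboveSet K L S) →ₗ[ℂ] XC L (aboveSet K L S))
    (V : Type) [AddCommGroup V] [Module ℂ V] [Module.Finite ℂ V]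
    (ρ : Representation ℂ (L ≃ₐ[K] L) V),
    IsPhiTheta K (aboveSet K L S) φ Θ → (∀ g, ρ.character g ∈ Cyc n) →
    ∃ M : ℕ, 0 < M ∧
      GMul G M (S : Set (HeightOneSpectrum (𝓞 K))) (aboveSet K L S) Θ ρ

/-- from the field cut out by `ψ` and `S = ∅` to `N` and any `S` -/
theorem up {n : ℕ} {G : Subgroup ℂˣ} (hG : Full n G)
    (F L N : Type) [Field F] [NumberField F] [Field L] [NumberField L] [Field N]
    [NumberField N]
    [Algebra F L] [Algebra F N] [Algebra L N] [IsScalarTower F L N] [IsGalois F L] [IsGalois F N]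
    (ψ' : (L ≃ₐ[F] L) →* ℂˣ) (h : Rat1 G F L ψ') (ψ : (N ≃ₐ[F] N) →* ℂˣ)
    (hcyc : ∀ g, ((ψ g : ℂˣ) : ℂ) ∈ Cyc n)
    (hψ : ∀ g : N ≃ₐ[F] N, ψ' (AlgEquiv.restrictNormalHom L g : L ≃ₐ[F] L) = ψ g)
    (S : Finset (HeightOneSpectrum (𝓞 F))) (T : Set (HeightOneSpectrum (𝓞 N)))
    (hT : aboveSet F N (S : Set (HeightOneSpectrum (𝓞 F))) = T)
    (φ : XQ N T ≃ₗ[ℚ] QU N T) (Θ : XC N T →ₗ[ℂ] XC N T) (hφ : IsPhiTheta F T φ Θ) :
    ∃ M : ℕ, 0 < M ∧ GMul G M (S : Set (HeightOneSpectrum (𝓞 F))) T Θ (linRep ψ) := by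
  subst hT
  have hψ2 : ψ = ψ'.comp (AlgEquiv.restrictNormalHom L) := by
    refine MonoidHom.ext fun g => ?_
    exact (hψ g).symm
  subst hψ2
  obtain ⟨φ₀, Θ₀, h₀⟩ := ALLT.exph F L ∅
  obtain ⟨M, hM, hst⟩ := h φ₀ Θ₀ h₀
  refine ⟨M, hM, ?_⟩
  obtain ⟨φ₁, Θ₁, h₁, hReg⟩ := ALLT.infl F L N ∅ φ₀ Θ₀ h₀
  obtain ⟨f, hf, hEq⟩ := hst
  have h2 : GMul G M
      ((∅ : Finset (HeightOneSpectrum (𝓞 F))) : Set (HeightOneSpectrum (𝓞 F)))
      (aboveSet F N (∅ : Finset (HeightOneSpectrum (𝓞 F)))) Θ₁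
      (linRep (ψ'.comp (AlgEquiv.restrictNormalHom L))) := by
    refine ⟨f, ⟨hf.1, fun s hs => ?_⟩, ?_⟩
    · rw [hf.2 s hs, BASEQ.linRep_comp, MAIN.logL_infl LINF_thm]
    · have h1 := hReg ℂ (linRep ψ')
      rw [← h1] at hEq
      exact hEq
  exact gsind hG (ψ'.comp (AlgEquiv.restrictNormalHom L)) hcyc M ∅ S φ₁ Θ₁ φ Θ h₁ hφ h2

theorem cyc_of_pow {n : ℕ} {A : Type} [Group A] (ψ : A →* ℂˣ) (h : ψ ^ n = 1) (g : A) :
    ((ψ g : ℂˣ) : ℂ) ∈ Cyc n := by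
  refine IntermediateField.subset_adjoin ℚ _ ?_
  show ((ψ g : ℂˣ) : ℂ) ^ n = 1
  rw [← Units.val_pow_eq_pow_val, ← MonoidHom.pow_apply, h]
  rfl

/-- from the class (A) to unramified characters of `Gal(N/F)` -/
theorem ofA (E : Type) [Field E] (T : Finset ℕ) {n : ℕ} {G : Subgroup ℂˣ} (hG : Full n G)
    (hA : ∀ (K L : Type) [Field K] [NumberField K] [Field L] [NumberField L] [Algebra K L]
      [IsGalois K L], ClsA G E T n K L)
    (F N : Type) [Field F] [NumberField F] [Field N] [NumberField N] [Algebra F N]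
    [IsGalois F N] [IsGalois ℚ N] (hcyc : IsCyclic (N ≃ₐ[F] N)) (hEN : Nonempty (E →+* N))
    (ψ : (N ≃ₐ[F] N) →* ℂˣ) (hψn : ψ ^ n = 1) (hF : IsTotallyComplex F)
    (h1 : ∀ (w : HeightOneSpectrum (𝓞 N)) (g : N ≃ₐ[F] N), FrobPow N w 1 g → ψ g = 1)
    (h2 : ∀ (w : HeightOneSpectrum (𝓞 N)), (∃ p ∈ T, p.Prime ∧ (p : 𝓞 N) ∈ w.asIdeal) →
      ∀ g : N ≃ₐ[F] N, Dec w g → ψ g = 1)
    (S : Finset (HeightOneSpectrum (𝓞 F))) (T' : Set (HeightOneSpectrum (𝓞 N)))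
    (hT : aboveSet F N (S : Set (HeightOneSpectrum (𝓞 F))) = T')
    (φ : XQ N T' ≃ₗ[ℚ] QU N T') (Θ : XC N T' →ₗ[ℂ] XC N T') (hφ : IsPhiTheta F T' φ Θ) :
    ∃ M : ℕ, 0 < M ∧ GMul G M (S : Set (HeightOneSpectrum (𝓞 F))) T' Θ (linRep ψ) := by
  obtain ⟨L, _, _, _, _, _, _, ψ', hinj, hψ'⟩ := FAITH.exists_field F N ψ
  have hgal : IsGalois L N := IsGalois.tower_top_of_isGalois F L N
  refine up hG F L N ψ' (hA F L hF ?_ ?_ ⟨N, inferInstance, inferInstance, inferInstance,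
    inferInstance, inferInstance, inferInstance, hcyc, hEN⟩ ψ' hinj ?_) ψ (cyc_of_pow ψ hψn)
    hψ' S T' hT φ Θ hφ
  · intro w g hg
    obtain ⟨W, rfl⟩ := FAITH.exists_above (N := N) w
    obtain ⟨g', hg', hF'⟩ := LINF.lift_frobPow (K := F) W 0 g (by rwa [pow_zero])
    rw [pow_zero] at hF'
    apply hinj
    rw [map_one, ← hg', hψ']
    exact h1 W g' hF'
  · intro w hw g hg
    obtain ⟨W, rfl⟩ := FAITH.exists_above (N := N) w
    obtain ⟨g₁, hg₁⟩ := AlgEquiv.restrictNormalHom_surjective (F := F) (K₁ := L) N g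
    obtain ⟨τ, hτ⟩ := UREAL.trans (L := L) (STB.mv (g₁ : N ≃+* N) W) W (by
      rw [RB.mv_under, hg₁]
      exact (RB.dec_iff _ _).1 hg)
    have h3 : AlgEquiv.restrictNormalHom L (τ.restrictScalars F) = (1 : L ≃ₐ[F] L) := by
      ext x
      apply (algebraMap L N).injective
      have h2 := AlgEquiv.restrictNormal_commutes (τ.restrictScalars F) L x
      show algebraMap L N ((τ.restrictScalars F).restrictNormal L x) = algebraMap L N x
      rw [h2]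
      exact τ.commutes x
    have h4 : Dec W (τ.restrictScalars F * g₁ : N ≃ₐ[F] N) := by
      rw [RB.dec_iff, RB.mv_mul]
      exact hτ
    obtain ⟨p, hp, hpp, hpw⟩ := hw
    have h5 := h2 W ⟨p, hp, hpp, by rwa [RB.natCast_mem_under] at hpw⟩ _ h4
    apply hinj
    rw [map_one, ← hg₁]
    have h6 : (AlgEquiv.restrictNormalHom L g₁ : L ≃ₐ[F] L) =
        AlgEquiv.restrictNormalHom L (τ.restrictScalars F * g₁) := by
      rw [map_mul, h3, one_mul]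
    rw [h6, hψ']
    exact h5
  · refine MonoidHom.ext fun a => ?_
    obtain ⟨g, rfl⟩ := AlgEquiv.restrictNormalHom_surjective (F := F) (K₁ := L) N a
    rw [MonoidHom.pow_apply, hψ', ← MonoidHom.pow_apply, hψn]
    rfl

/-- from the class (B) to totally odd characters of `Gal(N/F)` -/
theorem ofB {n : ℕ} {G : Subgroup ℂˣ} (hG : Full n G)
    (hB : ∀ (K L : Type) [Field K] [NumberField K] [Field L] [NumberField L] [Algebra K L]
      [IsGalois K L], ClsB G n K L)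
    (F N : Type) [Field F] [NumberField F] [Field N] [NumberField N] [Algebra F N]
    [IsGalois F N] (ψ : (N ≃ₐ[F] N) →* ℂˣ) (hψn : ∀ g, ((ψ g : ℂˣ) : ℂ) ∈ Cyc n)
    (hF : IsTotallyReal F)
    (h1 : ∀ (Φ : N →+* ℂ) (c : N ≃ₐ[F] N), ComplexEmbedding.IsConj Φ c → (ψ c : ℂ) = -1)
    (S : Finset (HeightOneSpectrum (𝓞 F))) (T' : Set (HeightOneSpectrum (𝓞 N)))
    (hT : aboveSet F N (S : Set (HeightOneSpectrum (𝓞 F))) = T')
    (φ : XQ N T' ≃ₗ[ℚ] QU N T') (Θ : XC N T' →ₗ[ℂ] XC N T') (hφ : IsPhiTheta F T' φ Θ) :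
    ∃ M : ℕ, 0 < M ∧ GMul G M (S : Set (HeightOneSpectrum (𝓞 F))) T' Θ (linRep ψ) := by
  obtain ⟨L, _, _, _, _, _, _, ψ', hinj, hψ'⟩ := FAITH.exists_field F N ψ
  refine up hG F L N ψ' (hB F L hF ψ' hinj ?_ ?_) ψ hψn hψ' S T' hT φ Θ hφ
  · intro a
    obtain ⟨g, rfl⟩ := AlgEquiv.restrictNormalHom_surjective (F := F) (K₁ := L) N a
    rw [hψ']
    exact hψn g
  intro Φ' c' hc'
  -- extend `Φ'` to `N`
  let Φ : N →+* ℂ := ComplexEmbedding.lift N Φ'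
  have hΦ : Φ.comp (algebraMap L N) = Φ' := ComplexEmbedding.lift_comp_algebraMap N Φ'
  have hreal : (ComplexEmbedding.conjugate Φ).comp (algebraMap F N) =
      Φ.comp (algebraMap F N) := by
    have h2 := hF.isReal (InfinitePlace.mk (Φ.comp (algebraMap F N)))
    rw [InfinitePlace.isReal_mk_iff] at h2
    exact h2
  obtain ⟨ν, hν⟩ := NumberField.ComplexEmbedding.exists_comp_symm_eq_of_comp_eq (k := F) Φ
    (ComplexEmbedding.conjugate Φ) hreal.symm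
  have hc : ComplexEmbedding.IsConj Φ ν.symm := hν.symm
  have h3 := CMB.isConj_restrict (L := L) hc
  rw [hΦ] at h3
  have h4 : c' = AlgEquiv.restrictNormalHom L ν.symm := hc'.ext h3
  rw [h4, hψ']
  exact h1 Φ ν.symm hc

/-- The two classes imply the assertion over `ℚ`. -/
theorem ratQ (hU : Stmt_UALGN) (hC : Stmt_UCOMP) (E : Type) [Field E] [NumberField E]
    (T : Finset ℕ) {n : ℕ} (hn : 0 < n) {G : Subgroup ℂˣ} (hG : Full n G)
    (hA : ∀ (K L : Type) [Field K] [NumberField K] [Field L] [NumberField L] [Algebra K L]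
      [IsGalois K L], ClsA G E T n K L)
    (hB : ∀ (K L : Type) [Field K] [NumberField K] [Field L] [NumberField L] [Algebra K L]
      [IsGalois K L], ClsB G n K L) : RatQ G n := by
  intro L _ _ _ S φ Θ V _ _ _ ρ hφ hval
  obtain ⟨L₁, _, _, aQ, aL, aE, _, t1, t2⟩ := hC ℚ L E
  clear t1 t2 aQ
  obtain ⟨N, _, _, aN, _, hN⟩ := hU L₁ T n hn
    (fun g => ρ.character (AlgEquiv.restrictNormalHom L g))
    (CMAIN.character_mem V (ρ.comp (AlgEquiv.restrictNormalHom L) :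
      Representation ℂ (L₁ ≃ₐ[ℚ] L₁) V)) (fun g => hval _)
  let aLN : Algebra L N := ((algebraMap L₁ N).comp (algebraMap L L₁)).toAlgebra
  have tLN : IsScalarTower L L₁ N := IsScalarTower.of_algebraMap_eq fun x => rfl
  have hEN : Nonempty (E →+* N) := ⟨(algebraMap L₁ N).comp (algebraMap E L₁)⟩
  have hres : (fun g : N ≃ₐ[ℚ] N => ρ.character (AlgEquiv.restrictNormalHom L g)) =
      fun g : N ≃ₐ[ℚ] N => ρ.character (AlgEquiv.restrictNormalHom L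
        (AlgEquiv.restrictNormalHom L₁ g : L₁ ≃ₐ[ℚ] L₁)) := by
    funext g
    rw [UALG.res12 (N₁ := L)]
  rw [← hres] at hN
  obtain ⟨M, hM, hGS⟩ := CMAIN.clear hN
  obtain ⟨m, H, ψ, k, hP, hsum⟩ := CMB.of_mem_GS hGS
  obtain ⟨φ', Θ', hφ', hR⟩ := ALLT.infl ℚ L N S φ Θ hφ
  have h3 : ∃ M' : ℕ, 0 < M' ∧ GMul G M' (S : Set (HeightOneSpectrum (𝓞 ℚ)))
      (aboveSet ℚ N S) Θ' (ρ.comp (AlgEquiv.restrictNormalHom L) :
        Representation ℂ (N ≃ₐ[ℚ] N) V) := by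
    refine gind G ℚ N S φ' Θ' V (ρ.comp (AlgEquiv.restrictNormalHom L)) M
      m H ψ k hM hφ' hsum (fun i => ?_)
    obtain ⟨S', hS'⟩ := IND.exists_S' (IntermediateField.fixedField (H i))
      (S : Set (HeightOneSpectrum (𝓞 ℚ))) S.finite_toSet
    have hφ2 := IND.isPhiTheta_sub (IntermediateField.fixedField (H i)) hφ'
    have hlin : ∃ Mi : ℕ, 0 < Mi ∧ GMul G Mi
        (S' : Set (HeightOneSpectrum (𝓞 (IntermediateField.fixedField (H i)))))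
        (aboveSet ℚ N S) Θ' (linRep (liftChar (H i) (ψ i))) := by
      rcases hP i with ⟨hcyc, ⟨hc, hur, htr⟩, hψn⟩ | ⟨hB', hval'⟩
      · have hcyc' : IsCyclic (N ≃ₐ[IntermediateField.fixedField (H i)] N) :=
          isCyclic_of_surjective (IntermediateField.subgroupEquivAlgEquiv (H i))
            (IntermediateField.subgroupEquivAlgEquiv (H i)).surjective
        refine ofA E T hG hA (IntermediateField.fixedField (H i)) N hcyc' hEN
          (liftChar (H i) (ψ i)) ?_ (GOOD.totallyComplex (H i) hc) ?_ ?_ S' _ hS' φ' Θ' hφ2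
        · refine MonoidHom.ext fun g => ?_
          have h4 := DFunLike.congr_fun hψn ((IntermediateField.subgroupEquivAlgEquiv (H i)).symm g)
          exact h4
        · intro w g hg
          rw [← CMAIN.coe_symm] at hg
          exact hur w _ hg
        · intro w hw g hg
          rw [← CMAIN.coe_symm] at hg
          exact htr w _ hw hg
      · refine ofB hG hB
          (IntermediateField.fixedField (H i)) N (liftChar (H i) (ψ i)) (fun g => hval' _)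
          (CMAIN.totallyReal (H i) fun c hc => (hB' c hc).1) ?_ S' _ hS' φ' Θ' hφ2
        intro Φ c hc
        obtain ⟨h1, h2⟩ := hB' _ ⟨Φ, GOOD.isConj_symm (H i) c Φ hc⟩
        exact h2
    obtain ⟨Mi, hMi, hst⟩ := hlin
    exact ⟨Mi, S', hMi, hS', hst⟩
  obtain ⟨M', hM', f, hf, hE⟩ := h3
  refine ⟨M', hM', f, ⟨hf.1, fun s hs => ?_⟩, ?_⟩
  · rw [hf.2 s hs, MAIN.logL_infl LINF_thm]
  · rw [hR V ρ] at hE
    exact hE

/-- Data over `F`, `N` with `N/ℚ` Galois. -/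
theorem linearN {n : ℕ} {G : Subgroup ℂˣ} (hG : Full n G) (hQ : RatQ G n)
    (F N : Type) [Field F] [NumberField F] [Field N] [NumberField N] [Algebra F N]
    [IsGalois F N] [IsGalois ℚ N] (ψ : (N ≃ₐ[F] N) →* ℂˣ)
    (hψ : ∀ g, ((ψ g : ℂˣ) : ℂ) ∈ Cyc n)
    (S : Finset (HeightOneSpectrum (𝓞 F)))
    (φ : XQ N (aboveSet F N S) ≃ₗ[ℚ] QU N (aboveSet F N S))
    (Θ : XC N (aboveSet F N S) →ₗ[ℂ] XC N (aboveSet F N S))
    (hφ : IsPhiTheta F (aboveSet F N S) φ Θ) :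
    ∃ M : ℕ, 0 < M ∧ GMul G M (S : Set (HeightOneSpectrum (𝓞 F))) (aboveSet F N S) Θ
      (linRep ψ) := by
  obtain ⟨S₁, hS₁⟩ := BASEQ.exists_S1 (E := ℚ) (F := F) (N := N) ∅
  obtain ⟨φ₀, Θ₀, h₀⟩ := ALLT.exph ℚ N ∅
  obtain ⟨V, _, _, _, ρ, hρ⟩ := INDREP_thm (N ≃ₐ[ℚ] N) (fixK ℚ F N) (BASEQ.chr ℚ ψ)
  have hval : ∀ g, ρ.character g ∈ Cyc n := by
    intro g
    rw [hρ]
    exact UVAL.values_of_pow n _ _ (fun h => hψ _) g
  obtain ⟨M, hM, hst⟩ := hQ N ∅ φ₀ Θ₀ V ρ h₀ hval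
  refine ⟨M, hM, ?_⟩
  have h1 := gdown G ℚ F N ∅ S₁ hS₁ φ₀ Θ₀ h₀ V ρ ψ (fun g => by
    rw [hρ, BASEQ.extZ_chr]) M hst
  have h0 : IsPhiTheta F (aboveSet ℚ N (∅ : Finset (HeightOneSpectrum (𝓞 ℚ)))) φ₀ Θ₀ :=
    BASEQ.isPhiTheta_res h₀
  revert h0 h1
  clear h₀ hst
  revert φ₀ Θ₀
  rw [← hS₁]
  intro φ₀ Θ₀ h1 h0
  exact gsind hG ψ hψ M S₁ S φ₀ Θ₀ φ Θ h0 hφ h1

/-- Data over `F`, `L`. -/
theorem linear {n : ℕ} {G : Subgroup ℂˣ} (hG : Full n G) (hQ : RatQ G n)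
    (F L : Type) [Field F] [NumberField F] [Field L] [NumberField L] [Algebra F L]
    [IsGalois F L] (ψ : (L ≃ₐ[F] L) →* ℂˣ) (hψ : ∀ g, ((ψ g : ℂˣ) : ℂ) ∈ Cyc n)
    (S : Finset (HeightOneSpectrum (𝓞 F))) (T : Set (HeightOneSpectrum (𝓞 L)))
    (hT : aboveSet F L (S : Set (HeightOneSpectrum (𝓞 F))) = T)
    (φ : XQ L T ≃ₗ[ℚ] QU L T) (Θ : XC L T →ₗ[ℂ] XC L T) (hφ : IsPhiTheta F T φ Θ) :
    ∃ M : ℕ, 0 < M ∧ GMul G M (S : Set (HeightOneSpectrum (𝓞 F))) T Θ (linRep ψ) := by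
  subst hT
  obtain ⟨N, _, _, _, _, _⟩ := GALQ_thm L
  let alg : Algebra F N := ((algebraMap L N).comp (algebraMap F L)).toAlgebra
  have hst : IsScalarTower F L N := IsScalarTower.of_algebraMap_eq fun x => rfl
  have hgal : IsGalois F N := IsGalois.tower_top_of_isGalois ℚ F N
  obtain ⟨φ', Θ', hφ', hReg⟩ := ALLT.infl F L N S φ Θ hφ
  obtain ⟨M, hM, f, hf, hEq⟩ := linearN hG hQ F N
    (ψ.comp (AlgEquiv.restrictNormalHom L)) (fun g => hψ _) S φ' Θ' hφ'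
  refine ⟨M, hM, f, ⟨hf.1, fun s hs => ?_⟩, ?_⟩
  · rw [hf.2 s hs, BASEQ.linRep_comp, MAIN.logL_infl LINF_thm]
  · have h1 := hReg ℂ (linRep ψ)
    rw [← h1]
    exact hEq

/-- From `ℚ` to all number fields. -/
theorem ratK {n : ℕ} (hn : 0 < n) {G : Subgroup ℂˣ} (hG : Full n G) (hQ : RatQ G n) :
    RatK G n := by
  intro K L _ _ _ _ _ _ S φ Θ V _ _ _ ρ hφ hval
  have h1 : ρ.character ∈ SpanQ (G := L ≃ₐ[K] L) (UAVG.Avg (fun _ _ => True) (UNTH.ev n)) := by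
    refine UAVG.main (UNTH.ev n) (CMAIN.character_mem V ρ) fun a g ha han => ?_
    exact UVAL.inv_of_values n hn (CMAIN.character_mem V ρ) hval a g ha
      (Nat.ModEq.of_dvd (UNTH.dvd_ev n) han)
  obtain ⟨M, hM, hGS⟩ := CMAIN.clear h1
  obtain ⟨m, H, ψ, k, hP, hsum⟩ := CMB.of_mem_GS hGS
  refine gind G K L S φ Θ V ρ M m H ψ k hM hφ hsum (fun i => ?_)
  obtain ⟨S', hS'⟩ := IND.exists_S' (IntermediateField.fixedField (H i))
    (S : Set (HeightOneSpectrum (𝓞 K))) S.finite_toSet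
  have hφ2 := IND.isPhiTheta_sub (IntermediateField.fixedField (H i)) hφ
  obtain ⟨Mi, hMi, hst⟩ := linear hG hQ (IntermediateField.fixedField (H i)) L
    (liftChar (H i) (ψ i)) (fun g => by
      obtain ⟨_, _, _, _, _, _, _, h2, _⟩ := hP i
      refine UNTH.mem_cyc_of n _ ?_
      rw [← Units.val_pow_eq_pow_val]
      have h3 := DFunLike.congr_fun h2 ((IntermediateField.subgroupEquivAlgEquiv (H i)).symm g)
      exact congrArg (fun u : ℂˣ => (u : ℂ)) h3) S' _ hS' φ Θ hφ2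
  exact ⟨Mi, S', hMi, hS', hst⟩

end StarkG
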