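import Pool.Agent.StarkAlg.GDefs
import Pool.Agent.StarkAlg.GMain
import Pool.Agent.StarkT.PBridgeT
import Pool.Agent.StarkT.MULR

/-!
# Multiplicative relations between the numbers `A_S(χ, φ)`
-/

open NumberField IsDedekindDomain
open scoped TensorProduct Classical

namespace StarkG

/-- The roots of the elements of `G`. -/
def hat (G : Subgroup ℂˣ) : Subgroup ℂˣ where
  carrier := {u | ∃ m : ℕ, 0 < m ∧ u ^ m ∈ G}
  mul_mem' := by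
    rintro a b ⟨m, hm, ha⟩ ⟨k, hk, hb⟩
    refine ⟨m * k, Nat.mul_pos hm hk, ?_⟩
    rw [mul_pow, pow_mul, mul_comm m k, pow_mul]
    exact G.mul_mem (G.pow_mem ha k) (G.pow_mem hb m)
  one_mem' := ⟨1, one_pos, by rw [one_pow]; exact G.one_mem⟩
  inv_mem' := by
    rintro a ⟨m, hm, ha⟩
    exact ⟨m, hm, by rw [inv_pow]; exact G.inv_mem ha⟩

theorem le_hat (G : Subgroup ℂˣ) : G ≤ hat G := fun u hu => ⟨1, one_pos, by rwa [pow_one]⟩

theorem full_hat {n : ℕ} {G : Subgroup ℂˣ} (h : ∀ u : ℂˣ, (u : ℂ) ∈ StarkC.Cyc n → u ∈ G) :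
    Full n (hat G) := by
  refine ⟨fun u hu => le_hat G (h u hu), ?_⟩
  rintro u m hm ⟨k, hk, hu⟩
  exact ⟨m * k, Nat.mul_pos hm hk, by rwa [pow_mul]⟩

section

variable {K L : Type} [Field K] [NumberField K] [Field L] [NumberField L] [Algebra K L]

theorem GMul.mono {G G' : Subgroup ℂˣ} (h : G ≤ G') {M : ℕ} {S : Set (HeightOneSpectrum (𝓞 K))}
    {T : Set (HeightOneSpectrum (𝓞 L))} {Θ : StarkC.XC L T →ₗ[ℂ] StarkC.XC L T}
    {V : Type} [AddCommGroup V] [Module ℂ V] {ρ : Representation ℂ (L ≃ₐ[K] L) V}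
    (hM : GMul G M S T Θ ρ) : GMul G' M S T Θ ρ := by
  obtain ⟨f, hf, u, hu, e⟩ := hM
  exact ⟨f, hf, u, h hu, e⟩

theorem GMul.of_hat {G : Subgroup ℂˣ} {M : ℕ} {S : Set (HeightOneSpectrum (𝓞 K))}
    {T : Set (HeightOneSpectrum (𝓞 L))} {Θ : StarkC.XC L T →ₗ[ℂ] StarkC.XC L T}
    {V : Type} [AddCommGroup V] [Module ℂ V] {ρ : Representation ℂ (L ≃ₐ[K] L) V} (hM0 : 0 < M)
    (hM : GMul (hat G) M S T Θ ρ) : ∃ M' : ℕ, 0 < M' ∧ GMul G M' S T Θ ρ := by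
  obtain ⟨f, hf, u, ⟨m, hm, hu⟩, e⟩ := hM
  refine ⟨M * m, Nat.mul_pos hM0 hm, f ^ m, ⟨fun z => (hf.1 z).pow m, fun s hs => ?_⟩,
    u ^ m, hu, ?_⟩
  · rw [Pi.pow_apply, hf.2 s hs, ← Complex.exp_nat_mul]
    congr 1
    push_cast
    ring
  · rw [(hf.1 0).meromorphicTrailingCoeffAt_pow, pow_mul, ← div_pow, Units.val_pow_eq_pow_val, e]

variable [IsGalois K L]

theorem powIn_iff (G : Subgroup ℂˣ) {V : Type} [AddCommGroup V] [Module ℂ V] [Module.Finite ℂ V]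
    (S : Finset (HeightOneSpectrum (𝓞 K))) (ρ : Representation ℂ (L ≃ₐ[K] L) V) :
    StarkM.PowIn G S ρ ↔
    ∀ (φ : StarkC.XQ L (StarkC.aboveSet K L S) ≃ₗ[ℚ] StarkC.QU L (StarkC.aboveSet K L S))
      (Θ : StarkC.XC L (StarkC.aboveSet K L S) →ₗ[ℂ] StarkC.XC L (StarkC.aboveSet K L S)),
      StarkC.IsPhiTheta K (StarkC.aboveSet K L S) φ Θ →
      ∃ M : ℕ, 0 < M ∧ GMul G M (S : Set (HeightOneSpectrum (𝓞 K)))
        (StarkC.aboveSet K L S) Θ ρ := by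
  have hT := StarkC.STB_thm K L (S : Set (HeightOneSpectrum (𝓞 K)))
  have hfin : (StarkC.aboveSet K L (S : Set (HeightOneSpectrum (𝓞 K)))).Finite :=
    StarkC.IND.aboveSet_finite _ S.finite_toSet
  have hreg : ∀ (φ : StarkC.XQ L (StarkC.aboveSet K L S) ≃ₗ[ℚ]
      StarkC.QU L (StarkC.aboveSet K L S))
      (Θ : StarkC.XC L (StarkC.aboveSet K L S) →ₗ[ℂ] StarkC.XC L (StarkC.aboveSet K L S))
      (Θ' : ((L → ℝ) →₀ ℂ) →ₗ[ℂ] ((L → ℝ) →₀ ℂ)),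
      StarkC.IsPhiTheta K (StarkC.aboveSet K L S) φ Θ →
      (∀ x : StarkC.XC L (StarkC.aboveSet K L S), Θ' x.val = (Θ x).val) → ∀ M : ℕ,
      StarkP.Reg (StarkC.aboveSet K L (S : Set (HeightOneSpectrum (𝓞 K))))
        (StarkV.copies M ρ) Θ' =
      StarkC.Reg (StarkC.aboveSet K L (S : Set (HeightOneSpectrum (𝓞 K)))) ρ Θ ^ M :=
    fun φ Θ Θ' hφ h1 M => (StarkB.Reg_eq (StarkP.mulRep M ρ) Θ Θ' h1).trans
      (StarkC.MULR.reg_mulRep K L S φ Θ V ρ M hφ)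
  unfold StarkM.PowIn
  rw [StarkB.aboveSet_eq]
  constructor
  · intro h φ Θ hφ
    obtain ⟨Θ', hΘ'⟩ := LinearMap.exists_extend
      (p := StarkC.XCsub L (StarkC.aboveSet K L (S : Set (HeightOneSpectrum (𝓞 K)))))
      (StarkC.XC.val ∘ₗ Θ :
        StarkC.XCsub L (StarkC.aboveSet K L (S : Set (HeightOneSpectrum (𝓞 K)))) →ₗ[ℂ]
          ((L → ℝ) →₀ ℂ))
    have h1 : ∀ x : StarkC.XC L (StarkC.aboveSet K L (S : Set (HeightOneSpectrum (𝓞 K)))),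
      Θ' x.val = (Θ x).val := fun x => LinearMap.congr_fun hΘ' x
    obtain ⟨M, f, hM, hf, a, ha, e⟩ := h Θ' (StarkB.isTheta_of hT hfin φ Θ hφ Θ' h1)
    refine ⟨M, hM, f, (StarkC.MULR.isArtinL_mulRep ρ M S f).1 hf, a, ha, ?_⟩
    rw [e]
    exact congrArg (· / meromorphicTrailingCoeffAt f 0) (hreg φ Θ Θ' hφ h1 M)
  · intro h Θ' hΘ'
    obtain ⟨φ, Θ, hφ, h1⟩ := StarkB.exists_phiTheta hT hfin (StarkB.actU_mem' _) Θ' hΘ'
    obtain ⟨M, hM, f, hf, a, ha, e⟩ := h φ Θ hφ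
    refine ⟨M, f, hM, (StarkC.MULR.isArtinL_mulRep ρ M S f).2 hf, a, ha, ?_⟩
    rw [e]
    exact (congrArg (· / meromorphicTrailingCoeffAt f 0) (hreg φ Θ Θ' hφ h1 M)).symm

end

/-- **The reduction**, for every group `G` which contains `ℚ(ζ_n)ˣ`. -/
theorem main (G : Subgroup ℂˣ) (E : Type) [Field E] [NumberField E] (T : Finset ℕ) (n : ℕ)
    (hn : 0 < n) (hG : ∀ u : ℂˣ, (u : ℂ) ∈ StarkV.cycField n → u ∈ G) :
    StarkM.Values G n ↔ StarkM.ValuesA G E T n ∧ StarkM.ValuesB G n := by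
  constructor
  · intro h
    refine ⟨fun K L _ _ _ _ _ _ _ _ _ _ ψ _ hψ => ?_, fun K L _ _ _ _ _ _ _ ψ _ hψ _ => ?_⟩
    · refine h K L ℂ (StarkP.linRep ψ) (fun g => ?_) ∅
      have h1 : (StarkP.linRep ψ).character g = (ψ g : ℂ) := StarkC.MAIN.linRep_character ψ g
      rw [h1]
      exact cyc_of_pow ψ hψ g
    · refine h K L ℂ (StarkP.linRep ψ) (fun g => ?_) ∅
      have h1 : (StarkP.linRep ψ).character g = (ψ g : ℂ) := StarkC.MAIN.linRep_character ψ g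
      rw [h1]
      exact hψ g
  · rintro ⟨hA, hB⟩ K L V _ _ _ _ _ _ _ _ _ ρ hval S
    have hF : Full n (hat G) := full_hat hG
    have hK : RatK (hat G) n := by
      refine ratK hn hF (ratQ StarkC.ALLV.ualgn StarkC.UCOMP_thm E T hn hF ?_ ?_)
      · intro K L _ _ _ _ _ _ hK h1 h2 h3 ψ hψ hψn φ Θ hφ
        obtain ⟨M, hM, h⟩ := (powIn_iff G ∅ (StarkP.linRep ψ)).1
          (hA K L hK h1 h2 h3 ψ hψ hψn) φ Θ hφ
        exact ⟨M, hM, h.mono (le_hat G)⟩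
      · intro K L _ _ _ _ _ _ hK ψ hψ hv h1 φ Θ hφ
        obtain ⟨M, hM, h⟩ := (powIn_iff G ∅ (StarkP.linRep ψ)).1
          (hB K L hK ψ hψ hv h1) φ Θ hφ
        exact ⟨M, hM, h.mono (le_hat G)⟩
    refine (powIn_iff G S ρ).2 fun φ Θ hφ => ?_
    obtain ⟨M, hM, h⟩ := hK K L S φ Θ V ρ hφ hval
    exact h.of_hat hM

end StarkG
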