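import Pool.Agent.StarkU.PDefsV

/-!
# Multiplicative relations between the numbers `A_S(χ, φ)`: definitions
-/

open NumberField IsDedekindDomain
open scoped Classical

namespace StarkM

open StarkP StarkV

/-- A power of `A_S(χ, φ)` lies in the subgroup `G` of `ℂˣ`, for all `φ`: there is an `m ≥ 1` such
that the Artin `L`-series of `m χ` continues and `A_S(m χ, φ)`, which is `A_S(χ, φ)^m`, lies in `G`;
here `χ` is the character of `ρ`. -/
def PowIn (G : Subgroup ℂˣ) {K L : Type} [Field K] [NumberField K] [Field L] [NumberField L]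
    [Algebra K L] {V : Type} [AddCommGroup V] [Module ℂ V]
    (S : Finset (HeightOneSpectrum (𝓞 K))) (ρ : Representation ℂ (L ≃ₐ[K] L) V) : Prop :=
  ∀ Θ : ((L → ℝ) →₀ ℂ) →ₗ[ℂ] ((L → ℝ) →₀ ℂ), IsTheta K (aboveSet K L S) Θ →
    ∃ (m : ℕ) (f : ℂ → ℂ), 0 < m ∧
      IsArtinL (copies m ρ).character (S : Set (HeightOneSpectrum (𝓞 K))) f ∧
      ∃ a ∈ G, (a : ℂ) = Reg (aboveSet K L S) (copies m ρ) Θ / meromorphicTrailingCoeffAt f 0

/-- The assertion `PowIn` for all finite Galois extensions of number fields, all `S` and all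
characters with values in `ℚ(ζ_n)`. -/
def Values (G : Subgroup ℂˣ) (n : ℕ) : Prop :=
  ∀ (K L V : Type) [Field K] [NumberField K] [Field L] [NumberField L] [Algebra K L]
    [IsGalois K L] [AddCommGroup V] [Module ℂ V] [Module.Finite ℂ V]
    (ρ : Representation ℂ (L ≃ₐ[K] L) V), (∀ g, ρ.character g ∈ cycField n) →
    ∀ S : Finset (HeightOneSpectrum (𝓞 K)), PowIn G S ρ

/-- Class (A): the assertion `PowIn` with `S = S_∞` for all injective linear characters `ψ` of
`Gal(L/K)` with `ψ ^ n = 1`, if `K` is totally complex, all inertia groups of `L/K` are trivial, the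
decomposition groups of the primes of `L` above the prime numbers in `T` are trivial and `L` is
contained in a field `N` as in `InCyclic`. -/
def ValuesA (G : Subgroup ℂˣ) (E : Type) [Field E] (T : Finset ℕ) (n : ℕ) : Prop :=
  ∀ (K L : Type) [Field K] [NumberField K] [Field L] [NumberField L] [Algebra K L] [IsGalois K L],
    IsTotallyComplex K →
    (∀ (w : HeightOneSpectrum (𝓞 L)) (g : L ≃ₐ[K] L), FrobPow L w 1 g → g = 1) →
    (∀ w : HeightOneSpectrum (𝓞 L), (∃ p ∈ T, p.Prime ∧ (p : 𝓞 L) ∈ w.asIdeal) →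
      ∀ g : L ≃ₐ[K] L, FixesPrime w g → g = 1) →
    InCyclic E K L →
    ∀ ψ : (L ≃ₐ[K] L) →* ℂˣ, Function.Injective ψ → ψ ^ n = 1 → PowIn G ∅ (linRep ψ)

/-- Class (B): the assertion `PowIn` with `S = S_∞` for all injective linear characters `ψ` of
`Gal(L/K)` with values in `ℚ(ζ_n)` and with `ψ(c) = -1` for all complex conjugations `c`, if `K` is
totally real. -/
def ValuesB (G : Subgroup ℂˣ) (n : ℕ) : Prop :=
  ∀ (K L : Type) [Field K] [NumberField K] [Field L] [NumberField L] [Algebra K L] [IsGalois K L],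
    IsTotallyReal K → ∀ ψ : (L ≃ₐ[K] L) →* ℂˣ, Function.Injective ψ →
    (∀ g, (ψ g : ℂ) ∈ cycField n) →
    (∀ (Φ : L →+* ℂ) (c : L ≃ₐ[K] L), ComplexEmbedding.IsConj Φ c → (ψ c : ℂ) = -1) →
    PowIn G ∅ (linRep ψ)

end StarkM
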