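import Pool.Agent.StarkU.PDefsV

/-!
# Algebraicity of `A_S(χ, φ)`: definitions
-/

open NumberField IsDedekindDomain
open scoped Classical

namespace StarkAlg

open StarkP StarkV

/-- For all `φ` there is an `m ≥ 1` such that the Artin `L`-series of `m χ` continues and
`A_S(m χ, φ) = A_S(χ, φ)^m` is an algebraic number, where `χ` is the character of `ρ`. -/
def AlgRat {K L : Type} [Field K] [NumberField K] [Field L] [NumberField L] [Algebra K L]
    {V : Type} [AddCommGroup V] [Module ℂ V]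
    (S : Finset (HeightOneSpectrum (𝓞 K))) (ρ : Representation ℂ (L ≃ₐ[K] L) V) : Prop :=
  ∀ Θ : ((L → ℝ) →₀ ℂ) →ₗ[ℂ] ((L → ℝ) →₀ ℂ), IsTheta K (aboveSet K L S) Θ →
    ∃ (m : ℕ) (f : ℂ → ℂ), 0 < m ∧
      IsArtinL (copies m ρ).character (S : Set (HeightOneSpectrum (𝓞 K))) f ∧
      IsAlgebraic ℚ (Reg (aboveSet K L S) (copies m ρ) Θ / meromorphicTrailingCoeffAt f 0)

/-- The assertion `AlgRat` for all finite Galois extensions of number fields, all `S` and all
characters with values in `ℚ(ζ_n)`. -/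
def AlgCyclotomic (n : ℕ) : Prop :=
  ∀ (K L V : Type) [Field K] [NumberField K] [Field L] [NumberField L] [Algebra K L]
    [IsGalois K L] [AddCommGroup V] [Module ℂ V] [Module.Finite ℂ V]
    (ρ : Representation ℂ (L ≃ₐ[K] L) V), (∀ g, ρ.character g ∈ cycField n) →
    ∀ S : Finset (HeightOneSpectrum (𝓞 K)), AlgRat S ρ

/-- The assertion `AlgRat` with `S = S_∞` for the class (A), see `StarkLinearA`. -/
def AlgClassA (E : Type) [Field E] (T : Finset ℕ) (n : ℕ) : Prop :=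
  ∀ (K L : Type) [Field K] [NumberField K] [Field L] [NumberField L] [Algebra K L] [IsGalois K L],
    IsTotallyComplex K →
    (∀ (w : HeightOneSpectrum (𝓞 L)) (g : L ≃ₐ[K] L), FrobPow L w 1 g → g = 1) →
    (∀ w : HeightOneSpectrum (𝓞 L), (∃ p ∈ T, p.Prime ∧ (p : 𝓞 L) ∈ w.asIdeal) →
      ∀ g : L ≃ₐ[K] L, FixesPrime w g → g = 1) →
    InCyclic E K L →
    ∀ ψ : (L ≃ₐ[K] L) →* ℂˣ, Function.Injective ψ → ψ ^ n = 1 → AlgRat ∅ (linRep ψ)

/-- The assertion `AlgRat` with `S = S_∞` for the class (B), see `StarkLinearB`. -/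
def AlgClassB (n : ℕ) : Prop :=
  ∀ (K L : Type) [Field K] [NumberField K] [Field L] [NumberField L] [Algebra K L] [IsGalois K L],
    IsTotallyReal K → ∀ ψ : (L ≃ₐ[K] L) →* ℂˣ, Function.Injective ψ →
    (∀ g, (ψ g : ℂ) ∈ cycField n) →
    (∀ (Φ : L →+* ℂ) (c : L ≃ₐ[K] L), ComplexEmbedding.IsConj Φ c → (ψ c : ℂ) = -1) →
    AlgRat ∅ (linRep ψ)

end StarkAlg
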