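import Pool.Agent.StarkAlg.AUT
import Pool.Agent.StarkAlg.PDefsA
import Pool.Agent.StarkU.PBridgeV
import Pool.Agent.StarkU.ALLV

/-!
# Algebraicity of `A_S(χ, φ)`: reduction to ideal class characters
-/

open NumberField IsDedekindDomain
open scoped TensorProduct Classical Topology

namespace StarkAlg

open StarkP StarkV

theorem nhdsNE_eq {f g : ℂ → ℂ} (hf : ∀ z, MeromorphicAt f z) (hg : ∀ z, MeromorphicAt g z)
    (h : ∀ s : ℂ, 1 < s.re → f s = g s) (z : ℂ) : f =ᶠ[𝓝[≠] z] g := by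
  have hm : MeromorphicOn (f - g) Set.univ := fun x _ => (hf x).sub (hg x)
  have h2 : meromorphicOrderAt (f - g) (2 : ℂ) = ⊤ := by
    rw [meromorphicOrderAt_eq_top_iff]
    apply Filter.Eventually.filter_mono nhdsWithin_le_nhds
    have ho : IsOpen {s : ℂ | 1 < s.re} := isOpen_lt continuous_const Complex.continuous_re
    filter_upwards [ho.mem_nhds (show (1 : ℝ) < (2 : ℂ).re by norm_num)] with s hs
    rw [Pi.sub_apply, h s hs, sub_self]
  have h3 := hm.exists_meromorphicOrderAt_ne_top_iff_forall_mem isConnected_univ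
  have h4 : meromorphicOrderAt (f - g) z = ⊤ := by
    by_contra hne
    exact h3.1 ⟨z, Set.mem_univ _, hne⟩ 2 (Set.mem_univ _) h2
  rw [meromorphicOrderAt_eq_top_iff] at h4
  filter_upwards [h4] with s hs
  exact sub_eq_zero.1 hs

theorem trail_eq {f g : ℂ → ℂ} (hf : ∀ z, MeromorphicAt f z) (hg : ∀ z, MeromorphicAt g z)
    (h : ∀ s : ℂ, 1 < s.re → f s = g s) :
    meromorphicTrailingCoeffAt f 0 = meromorphicTrailingCoeffAt g 0 :=
  meromorphicTrailingCoeffAt_congr_nhdsNE (nhdsNE_eq hf hg h 0)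

/-- powers of the leading coefficients -/
theorem trail_pow {f g : ℂ → ℂ} {l : ℂ → ℂ} {a b : ℕ} (hf : ∀ z, MeromorphicAt f z)
    (hg : ∀ z, MeromorphicAt g z) (hf2 : ∀ s : ℂ, 1 < s.re → f s = Complex.exp ((a : ℂ) * l s))
    (hg2 : ∀ s : ℂ, 1 < s.re → g s = Complex.exp ((b : ℂ) * l s)) :
    meromorphicTrailingCoeffAt f 0 ^ b = meromorphicTrailingCoeffAt g 0 ^ a := by
  rw [← (hf 0).meromorphicTrailingCoeffAt_pow, ← (hg 0).meromorphicTrailingCoeffAt_pow]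
  refine trail_eq (fun z => (hf z).pow b) (fun z => (hg z).pow a) fun s hs => ?_
  rw [Pi.pow_apply, Pi.pow_apply, hf2 s hs, hg2 s hs, ← Complex.exp_nat_mul, ← Complex.exp_nat_mul]
  congr 1
  ring

section

variable {K L : Type} [Field K] [NumberField K] [Field L] [NumberField L] [Algebra K L]

/-- algebraicity from the assertion for all automorphisms which fix the algebraic numbers -/
theorem alg_of (S : Set (HeightOneSpectrum (𝓞 K))) (T : Set (HeightOneSpectrum (𝓞 L)))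
    (Θ : StarkC.XC L T →ₗ[ℂ] StarkC.XC L T) {V : Type} [AddCommGroup V] [Module ℂ V]
    (ρ : Representation ℂ (L ≃ₐ[K] L) V)
    (h : ∀ σ : ℂ ≃+* ℂ, (∀ x : ℂ, IsAlgebraic ℚ x → σ x = x) →
      ∃ M : ℕ, 0 < M ∧ StarkC.StarkMulAt M S T Θ ρ ρ σ) :
    ∃ (M : ℕ) (f : ℂ → ℂ), 0 < M ∧ StarkC.IsArtinLMul M ρ.character S f ∧
      IsAlgebraic ℚ (StarkC.Reg T ρ Θ ^ M / meromorphicTrailingCoeffAt f 0) := by
  obtain ⟨M, hM, f, -, hf, -, -⟩ := h (RingEquiv.refl ℂ) fun x _ => rfl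
  refine ⟨M, f, hM, hf, ?_⟩
  by_contra hna
  obtain ⟨σ, hσ, hσ2⟩ := exists_aut _ hna
  obtain ⟨N, hN, g, g', hg, hg', he⟩ := h σ hσ
  rw [← trail_eq hg.1 hg'.1 fun s hs => by rw [hg.2 s hs, hg'.2 s hs]] at he
  set a := StarkC.Reg T ρ Θ ^ M / meromorphicTrailingCoeffAt f 0 with ha
  set b := StarkC.Reg T ρ Θ ^ N / meromorphicTrailingCoeffAt g 0 with hb
  have hab : a ^ N = b ^ M := by
    rw [ha, hb, div_pow, div_pow, ← pow_mul, ← pow_mul, mul_comm M N,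
      trail_pow hf.1 hg.1 hf.2 hg.2]
  have h1 : (2 * a) ^ N = a ^ N := by
    rw [← hσ2, ← map_pow, hab, map_pow, he]
  have ha0 : a ≠ 0 := by
    intro h0
    apply hna
    rw [h0]
    exact isAlgebraic_zero
  rw [mul_pow] at h1
  have h2 : (2 : ℂ) ^ N = 1 := by
    have h3 : a ^ N ≠ 0 := pow_ne_zero _ ha0
    exact mul_right_cancel₀ h3 (by rw [h1, one_mul])
  have h4 : (2 : ℕ) ^ N = 1 := by exact_mod_cast h2
  have h5 := Nat.one_lt_two_pow hN.ne'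
  omega

end

theorem isAlgebraic_cyc {n : ℕ} (hn : 0 < n) {x : ℂ} (hx : x ∈ cycField n) : IsAlgebraic ℚ x := by
  have h : Algebra.IsAlgebraic ℚ (cycField n) := by
    unfold cycField
    refine IntermediateField.isAlgebraic_adjoin fun z hz => ?_
    have hz' : z ^ n = 1 := hz
    exact IsIntegral.of_pow hn (by rw [hz']; exact isIntegral_one)
  have h1 := h.isAlgebraic ⟨x, hx⟩
  exact h1.algebraMap (A := ℂ)

theorem isAlgebraic_of_pow {n : ℕ} (hn : 0 < n) {x : ℂ} (hx : x ^ n = 1) : IsAlgebraic ℚ x := by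
  rw [isAlgebraic_iff_isIntegral]
  exact IsIntegral.of_pow hn (by rw [hx]; exact isIntegral_one)

theorem twist_eq {G : Type} [Group G] (σ : ℂ ≃+* ℂ) (ψ : G →* ℂˣ) (h : ∀ g, σ (ψ g : ℂ) = ψ g) :
    twist σ ψ = ψ := by
  ext g
  exact h g

section

variable {K L : Type} [Field K] [NumberField K] [Field L] [NumberField L] [Algebra K L]

theorem starkRat_of {V : Type} [AddCommGroup V] [Module ℂ V]
    (S : Finset (HeightOneSpectrum (𝓞 K))) (ρ : Representation ℂ (L ≃ₐ[K] L) V)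
    (h : AlgRat S ρ) (σ : ℂ ≃+* ℂ) (hσ : ∀ x : ℂ, IsAlgebraic ℚ x → σ x = x) :
    StarkRat S ρ ρ σ := by
  intro Θ hΘ
  obtain ⟨m, f, hm, hf, ha⟩ := h Θ hΘ
  exact ⟨m, hm, f, f, hf, hf, hσ _ ha⟩

theorem algRat_of [IsGalois K L] {V : Type} [AddCommGroup V] [Module ℂ V] [Module.Finite ℂ V]
    (S : Finset (HeightOneSpectrum (𝓞 K))) (ρ : Representation ℂ (L ≃ₐ[K] L) V)
    (h : ∀ σ : ℂ ≃+* ℂ, (∀ x : ℂ, IsAlgebraic ℚ x → σ x = x) → StarkRat S ρ ρ σ) :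
    AlgRat S ρ := by
  have hT := StarkC.STB_thm K L (S : Set (HeightOneSpectrum (𝓞 K)))
  have hfin : (StarkC.aboveSet K L (S : Set (HeightOneSpectrum (𝓞 K)))).Finite :=
    StarkC.IND.aboveSet_finite _ S.finite_toSet
  unfold AlgRat
  rw [StarkB.aboveSet_eq]
  intro Θ' hΘ'
  obtain ⟨φ, Θ, hφ, h1⟩ := StarkB.exists_phiTheta hT hfin (StarkB.actU_mem' _) Θ' hΘ'
  obtain ⟨M, f, hM, hf, ha⟩ := alg_of (S : Set (HeightOneSpectrum (𝓞 K))) _ Θ ρ
    fun σ hσ => (StarkVB.starkRat_iff S ρ ρ σ).1 (h σ hσ) φ Θ hφ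
  refine ⟨M, f, hM, (StarkC.MULR.isArtinL_mulRep ρ M S f).2 hf, ?_⟩
  have h2 : StarkP.Reg (StarkC.aboveSet K L (S : Set (HeightOneSpectrum (𝓞 K)))) (copies M ρ) Θ' =
      StarkC.Reg (StarkC.aboveSet K L (S : Set (HeightOneSpectrum (𝓞 K)))) ρ Θ ^ M :=
    (StarkB.Reg_eq (StarkP.mulRep M ρ) Θ Θ' h1).trans
      (StarkC.MULR.reg_mulRep K L S φ Θ V ρ M hφ)
  rw [h2]
  exact ha

end

theorem main (E : Type) [Field E] [NumberField E] (T : Finset ℕ) (n : ℕ) (hn : 0 < n) :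
    AlgCyclotomic n ↔ AlgClassA E T n ∧ AlgClassB n := by
  constructor
  · intro h
    refine ⟨fun K L _ _ _ _ _ _ _ _ _ _ ψ _ hψ => ?_, fun K L _ _ _ _ _ _ _ ψ _ hψ _ => ?_⟩
    · refine h K L ℂ (linRep ψ) (fun g => ?_) ∅
      have h1 : (StarkP.linRep ψ).character g = (ψ g : ℂ) := StarkC.MAIN.linRep_character ψ g
      rw [h1]
      refine IntermediateField.subset_adjoin ℚ _ ?_
      show ((ψ g : ℂˣ) : ℂ) ^ n = 1
      rw [← Units.val_pow_eq_pow_val, ← MonoidHom.pow_apply, hψ]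
      rfl
    · refine h K L ℂ (linRep ψ) (fun g => ?_) ∅
      have h1 : (StarkP.linRep ψ).character g = (ψ g : ℂ) := StarkC.MAIN.linRep_character ψ g
      rw [h1]
      exact hψ g
  · rintro ⟨hA, hB⟩ K L V _ _ _ _ _ _ _ _ _ ρ hval S
    refine algRat_of S ρ fun σ hσ => ?_
    have hA' : ClassA E T n σ := by
      intro K L _ _ _ _ _ _ hK h1 h2 h3 ψ hψ hψn
      rw [twist_eq σ ψ fun g => hσ _ (isAlgebraic_of_pow hn (by
        rw [← Units.val_pow_eq_pow_val, ← MonoidHom.pow_apply, hψn]; rfl))]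
      exact starkRat_of ∅ (linRep ψ) (hA K L hK h1 h2 h3 ψ hψ hψn) σ hσ
    have hB' : ClassB n σ := by
      intro K L _ _ _ _ _ _ hK ψ hψ hv h1
      rw [twist_eq σ ψ fun g => hσ _ (isAlgebraic_cyc hn (hv g))]
      exact starkRat_of ∅ (linRep ψ) (hB K L hK ψ hψ hv h1) σ hσ
    have hC := (StarkVB.main StarkC.ALLV.ualgn StarkC.UCOMP_thm E T n hn σ).2 ⟨hA', hB'⟩
    exact hC K L V V ρ ρ (fun g => (hσ _ (isAlgebraic_cyc hn (hval g))).symm) hval S

end StarkAlg
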