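import Mathlib

/-!
# An automorphism of `ℂ` which fixes the algebraic numbers and moves a transcendental number
-/

set_option autoImplicit false

namespace StarkAlg

open MvPolynomial

/-- multiplication of the variable `i₀` by `c` -/
noncomputable def scal {ι k : Type} [Field k] [DecidableEq ι] (i₀ : ι) (c : k) :
    MvPolynomial ι k →ₐ[k] MvPolynomial ι k :=
  MvPolynomial.aeval fun i => MvPolynomial.C (if i = i₀ then c else 1) * MvPolynomial.X i

theorem scal_comp {ι k : Type} [Field k] [DecidableEq ι] (i₀ : ι) (c d : k) (h : c * d = 1) :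
    (scal i₀ c).comp (scal i₀ d) = AlgHom.id k (MvPolynomial ι k) := by
  ext i : 1
  show scal i₀ c (scal i₀ d (X i)) = X i
  unfold scal
  rw [aeval_X, map_mul, aeval_X, MvPolynomial.aeval_C]
  by_cases hi : i = i₀
  · rw [if_pos hi, if_pos hi, ← mul_assoc]
    show MvPolynomial.C d * MvPolynomial.C c * X i = X i
    rw [← MvPolynomial.C_mul, mul_comm d c, h, MvPolynomial.C_1, one_mul]
  · rw [if_neg hi, if_neg hi, ← mul_assoc]
    show MvPolynomial.C 1 * MvPolynomial.C 1 * X i = X i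
    rw [MvPolynomial.C_1, one_mul, one_mul]

theorem exists_aut (a : ℂ) (ha : ¬ IsAlgebraic ℚ a) :
    ∃ σ : ℂ ≃+* ℂ, (∀ x : ℂ, IsAlgebraic ℚ x → σ x = x) ∧ σ a = 2 * a := by
  classical
  set k : IntermediateField ℚ ℂ := algebraicClosure ℚ ℂ with hk
  have hak : Transcendental k a := by
    intro h
    have : Algebra.IsAlgebraic ℚ k := algebraicClosure.isAlgebraic ℚ ℂ
    exact ha (isAlgebraic_iff_isIntegral.2 (isIntegral_trans (R := ℚ) (A := k) a
      (isAlgebraic_iff_isIntegral.1 h)))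
  have h1 : AlgebraicIndepOn k id ({a} : Set ℂ) := by
    have := (algebraicIndependent_unique_type_iff (ι := ({a} : Set ℂ)) (R := k)
      (x := fun i : ({a} : Set ℂ) => (i : ℂ))).2 (by simpa using hak)
    exact this
  obtain ⟨t, hat, ht⟩ := exists_isTranscendenceBasis_superset h1
  have hat' : a ∈ t := hat rfl
  let i₀ : t := ⟨a, hat'⟩
  let v : t → ℂ := fun i => (i : ℂ)
  have hv : IsTranscendenceBasis k v := ht
  let e₁ : MvPolynomial t k ≃ₐ[k] MvPolynomial t k :=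
    AlgEquiv.ofAlgHom (scal i₀ 2) (scal i₀ 2⁻¹) (scal_comp i₀ 2 2⁻¹ (by norm_num))
      (scal_comp i₀ 2⁻¹ 2 (by norm_num))
  let A := Algebra.adjoin k (Set.range v)
  have : IsAlgClosure A ℂ := IsAlgClosed.isAlgClosure_of_transcendence_basis v hv
  let e : A ≃ₐ[k] A := (hv.1.aevalEquiv.symm.trans e₁).trans hv.1.aevalEquiv
  have hσ := IsAlgClosure.equivOfEquiv_algebraMap ℂ ℂ e.toRingEquiv
  refine ⟨IsAlgClosure.equivOfEquiv ℂ ℂ e.toRingEquiv, ?_, ?_⟩
  · intro x hx
    have hxk : x ∈ k := (mem_algebraicClosure_iff).2 hx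
    have h2 := hσ (algebraMap k A ⟨x, hxk⟩)
    have h3 : e.toRingEquiv (algebraMap k A ⟨x, hxk⟩) = algebraMap k A ⟨x, hxk⟩ :=
      e.commutes ⟨x, hxk⟩
    rw [h3] at h2
    exact h2
  · have h4 : hv.1.aevalEquiv (X i₀) = (⟨a, Algebra.subset_adjoin ⟨i₀, rfl⟩⟩ : A) := by
      apply Subtype.ext
      rw [AlgebraicIndependent.aevalEquiv_apply_coe, aeval_X]
    have h5 : e (⟨a, Algebra.subset_adjoin ⟨i₀, rfl⟩⟩ : A) =
        2 * (⟨a, Algebra.subset_adjoin ⟨i₀, rfl⟩⟩ : A) := by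
      show hv.1.aevalEquiv (scal i₀ 2 (hv.1.aevalEquiv.symm _)) = _
      rw [← h4, AlgEquiv.symm_apply_apply]
      unfold scal
      rw [aeval_X, if_pos rfl, map_mul]
      congr 1
      rw [show (MvPolynomial.C (2 : k) : MvPolynomial t k) = 2 from rfl, map_ofNat]
    have h2 := hσ (⟨a, Algebra.subset_adjoin ⟨i₀, rfl⟩⟩ : A)
    have h3 : e.toRingEquiv (⟨a, Algebra.subset_adjoin ⟨i₀, rfl⟩⟩ : A) =
        2 * (⟨a, Algebra.subset_adjoin ⟨i₀, rfl⟩⟩ : A) := h5
    rw [h3, map_mul, map_ofNat] at h2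
    exact h2

end StarkAlg
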