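import Pool.Agent.StarkAlg.PDefsF
import Pool.Agent.StarkAlg.ALG
import Pool.Agent.StarkAlg.AUTF

/-!
# The fields which contain the numbers `A_S(χ, φ)`: reduction to ideal class characters
-/

open NumberField IsDedekindDomain
open scoped TensorProduct Classical Topology

namespace StarkF

open StarkP StarkV StarkAlg

section

variable {K L : Type} [Field K] [NumberField K] [Field L] [NumberField L] [Algebra K L]

/-- `A^M ∈ F` for some `M`, from the assertion for all automorphisms over `F` -/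
theorem val_of (F : Subfield ℂ)
    (S : Set (HeightOneSpectrum (𝓞 K))) (T : Set (HeightOneSpectrum (𝓞 L)))
    (Θ : StarkC.XC L T →ₗ[ℂ] StarkC.XC L T) {V : Type} [AddCommGroup V] [Module ℂ V]
    (ρ : Representation ℂ (L ≃ₐ[K] L) V)
    (h : ∀ σ : ℂ ≃+* ℂ, (∀ x ∈ F, σ x = x) →
      ∃ M : ℕ, 0 < M ∧ StarkC.StarkMulAt M S T Θ ρ ρ σ) :
    ∃ (M : ℕ) (f : ℂ → ℂ), 0 < M ∧ StarkC.IsArtinLMul M ρ.character S f ∧
      StarkC.Reg T ρ Θ ^ M / meromorphicTrailingCoeffAt f 0 ∈ F := by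
  obtain ⟨M, hM, f, -, hf, -, -⟩ := h (RingEquiv.refl ℂ) fun x _ => rfl
  by_contra hna
  obtain ⟨σ, hσ, hσ2⟩ := exists_autF' F (StarkC.Reg T ρ Θ ^ M / meromorphicTrailingCoeffAt f 0)
    fun m hm hmF => hna ⟨M * m, f ^ m, Nat.mul_pos hM hm, ⟨fun z => (hf.1 z).pow m, fun s hs => by
      rw [Pi.pow_apply, hf.2 s hs, ← Complex.exp_nat_mul]
      congr 1
      push_cast
      ring⟩, by
      rw [(hf.1 0).meromorphicTrailingCoeffAt_pow, pow_mul, ← div_pow]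
      exact hmF⟩
  obtain ⟨N, hN, g, g', hg, hg', he⟩ := h σ hσ
  rw [← trail_eq hg.1 hg'.1 fun s hs => by rw [hg.2 s hs, hg'.2 s hs]] at he
  have hab : (StarkC.Reg T ρ Θ ^ M / meromorphicTrailingCoeffAt f 0) ^ N =
      (StarkC.Reg T ρ Θ ^ N / meromorphicTrailingCoeffAt g 0) ^ M := by
    rw [div_pow, div_pow, ← pow_mul, ← pow_mul, mul_comm M N, trail_pow hf.1 hg.1 hf.2 hg.2]
  apply hσ2 N hN
  rw [← map_pow, hab, map_pow, he]

end

theorem mem_of_cyc {F : Subfield ℂ} {n : ℕ} (hF : ∀ z : ℂ, z ^ n = 1 → z ∈ F) {x : ℂ}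
    (hx : x ∈ cycField n) : x ∈ F := by
  have h : cycField n ≤ F.toIntermediateField fun q => by
      show ((q : ℚ) : ℂ) ∈ F
      exact SubfieldClass.ratCast_mem F q := by
    unfold cycField
    rw [IntermediateField.adjoin_le_iff]
    intro z hz
    exact hF z hz
  exact h hx

section

variable {K L : Type} [Field K] [NumberField K] [Field L] [NumberField L] [Algebra K L]

theorem starkRat_of {V : Type} [AddCommGroup V] [Module ℂ V] (F : Subfield ℂ)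
    (S : Finset (HeightOneSpectrum (𝓞 K))) (ρ : Representation ℂ (L ≃ₐ[K] L) V)
    (h : ValRat F S ρ) (σ : ℂ ≃+* ℂ) (hσ : ∀ x ∈ F, σ x = x) :
    StarkRat S ρ ρ σ := by
  intro Θ hΘ
  obtain ⟨m, f, hm, hf, ha⟩ := h Θ hΘ
  exact ⟨m, hm, f, f, hf, hf, hσ _ ha⟩

theorem valRat_of (F : Subfield ℂ) [IsGalois K L]
    {V : Type} [AddCommGroup V] [Module ℂ V] [Module.Finite ℂ V]
    (S : Finset (HeightOneSpectrum (𝓞 K))) (ρ : Representation ℂ (L ≃ₐ[K] L) V)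
    (h : ∀ σ : ℂ ≃+* ℂ, (∀ x ∈ F, σ x = x) → StarkRat S ρ ρ σ) :
    ValRat F S ρ := by
  have hT := StarkC.STB_thm K L (S : Set (HeightOneSpectrum (𝓞 K)))
  have hfin : (StarkC.aboveSet K L (S : Set (HeightOneSpectrum (𝓞 K)))).Finite :=
    StarkC.IND.aboveSet_finite _ S.finite_toSet
  unfold ValRat
  rw [StarkB.aboveSet_eq]
  intro Θ' hΘ'
  obtain ⟨φ, Θ, hφ, h1⟩ := StarkB.exists_phiTheta hT hfin (StarkB.actU_mem' _) Θ' hΘ'
  obtain ⟨M, f, hM, hf, ha⟩ := val_of F (S : Set (HeightOneSpectrum (𝓞 K))) _ Θ ρ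
    fun σ hσ => (StarkVB.starkRat_iff S ρ ρ σ).1 (h σ hσ) φ Θ hφ
  refine ⟨M, f, hM, (StarkC.MULR.isArtinL_mulRep ρ M S f).2 hf, ?_⟩
  have h2 : StarkP.Reg (StarkC.aboveSet K L (S : Set (HeightOneSpectrum (𝓞 K)))) (copies M ρ) Θ' =
      StarkC.Reg (StarkC.aboveSet K L (S : Set (HeightOneSpectrum (𝓞 K)))) ρ Θ ^ M :=
    (StarkB.Reg_eq (StarkP.mulRep M ρ) Θ Θ' h1).trans
      (StarkC.MULR.reg_mulRep K L S φ Θ V ρ M hφ)
  rw [h2]
  exact ha

end

theorem main (F : Subfield ℂ) (E : Type) [Field E] [NumberField E] (T : Finset ℕ) (n : ℕ)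
    (hn : 0 < n) (hF : ∀ z : ℂ, z ^ n = 1 → z ∈ F) :
    Values F n ↔ ValuesA F E T n ∧ ValuesB F n := by
  constructor
  · intro h
    refine ⟨fun K L _ _ _ _ _ _ _ _ _ _ ψ _ hψ => ?_, fun K L _ _ _ _ _ _ _ ψ _ hψ _ => ?_⟩
    · refine h K L ℂ (linRep ψ) (fun g => ?_) ∅
      have h1 : (StarkP.linRep ψ).character g = (ψ g : ℂ) := StarkC.MAIN.linRep_character ψ g
      rw [h1]
      refine IntermediateField.subset_adjoin ℚ _ ?_
      show ((ψ g : ℂˣ) : ℂ) ^ n = 1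
      rw [← Units.val_pow_eq_pow_val, ← MonoidHom.pow_apply, hψ]
      rfl
    · refine h K L ℂ (linRep ψ) (fun g => ?_) ∅
      have h1 : (StarkP.linRep ψ).character g = (ψ g : ℂ) := StarkC.MAIN.linRep_character ψ g
      rw [h1]
      exact hψ g
  · rintro ⟨hA, hB⟩ K L V _ _ _ _ _ _ _ _ _ ρ hval S
    refine valRat_of F S ρ fun σ hσ => ?_
    have hA' : ClassA E T n σ := by
      intro K L _ _ _ _ _ _ hK h1 h2 h3 ψ hψ hψn
      rw [twist_eq σ ψ fun g => hσ _ (hF _ (by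
        rw [← Units.val_pow_eq_pow_val, ← MonoidHom.pow_apply, hψn]; rfl))]
      exact starkRat_of F ∅ (linRep ψ) (hA K L hK h1 h2 h3 ψ hψ hψn) σ hσ
    have hB' : ClassB n σ := by
      intro K L _ _ _ _ _ _ hK ψ hψ hv h1
      rw [twist_eq σ ψ fun g => hσ _ (mem_of_cyc hF (hv g))]
      exact starkRat_of F ∅ (linRep ψ) (hB K L hK ψ hψ hv h1) σ hσ
    have hC := (StarkVB.main StarkC.ALLV.ualgn StarkC.UCOMP_thm E T n hn σ).2 ⟨hA', hB'⟩
    exact hC K L V V ρ ρ (fun g => (hσ _ (mem_of_cyc hF (hval g))).symm) hval S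

end StarkF
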